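import Pool.Agent.TH3.CH.Core

/-!
# Long chains, lower families and the reflection
-/

set_option autoImplicit false

namespace Pool.Agent.TH3.CH

open Finset Filter Topology

variable {ι : Type*}

/-- every line of `T` is somewhere a lowest line of `T` -/
def LowFam (a b : ι → ℝ) (T : Finset ι) : Prop :=
  ∀ i ∈ T, ∃ x, ∀ j ∈ T, ht a b i x ≤ ht a b j x

/-- every line of `T` is somewhere a highest line of `T` -/
def UpFam (a b : ι → ℝ) (T : Finset ι) : Prop :=
  ∀ i ∈ T, ∃ x, ∀ j ∈ T, ht a b j x ≤ ht a b i x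

variable {P : Finset ι} {a b : ι → ℝ} {k : ℕ}

/-- **the chain decomposition**: at most `k + 1` chains cover the crossings with exactly `k` lines
below, without repetition -/
theorem chains (hS : Simple P a b) (k : ℕ) :
    ∃ (L : Finset ι) (D : ι → ℕ) (C : ι → ℕ → ι) (z : ℝ), #L ≤ k + 1 ∧ L ⊆ P ∧
      (∀ l ∈ L, Chn P a b k z l (D l) (C l)) ∧
      ∀ (q : ι × ι → Prop) [DecidablePred q],
        #{w ∈ VV P a b k | q w} = ∑ l ∈ L, #{m ∈ range (D l) | q (C l m, C l (m + 1))} := by
  classical
  have hev : ∀ᶠ z : ℝ in atTop, (∀ i ∈ P, ∀ j ∈ P, i ≠ j → ht a b i z ≠ ht a b j z) ∧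
      ∀ w ∈ VV P a b k, xc a b w.1 w.2 < z := by
    refine Filter.Eventually.and ?_ ?_
    · rw [Filter.eventually_all_finset]
      intro i hi
      rw [Filter.eventually_all_finset]
      intro j hj
      by_cases hij : i = j
      · exact Eventually.of_forall fun z h => absurd hij h
      · by_cases ha : a i = a j
        · refine Eventually.of_forall fun z _ h => hS.ne i hi j hj hij ha ?_
          unfold ht at h
          rw [ha] at h
          linarith
        · filter_upwards [eventually_gt_atTop (xc a b i j)] with z hz _ h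
          exact hz.ne ((xc_eq ha).mpr h)
    · rw [Filter.eventually_all_finset]
      intro w _
      exact eventually_gt_atTop _
  obtain ⟨z, hz1, hz2⟩ := hev.exists
  obtain ⟨D, C, hC, hsum⟩ := chains_lt (k := k) hS _ z rfl (fun w hw => (hz2 w hw).ne)
  refine ⟨Low P a b k z, D, C, z, ?_, fun i hi => (mem_Low.mp hi).1, hC, ?_⟩
  · have h1 : #(Low P a b k z) ≤ #(range (k + 1)) := by
      refine card_le_card_of_injOn (fun i => lev P a b i z) ?_ ?_
      · intro i hi
        exact mem_coe.mpr (mem_range.mpr (Nat.lt_succ_of_le (mem_Low.mp hi).2))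
      · intro i hi j hj h
        have hi' := (mem_Low.mp hi).1
        have hj' := (mem_Low.mp hj).1
        by_contra hij
        simp only at h
        rcases lt_or_gt_of_ne (hz1 i hi' j hj' hij) with h2 | h2
        · have := lev_lt_of_lt hi' h2; omega
        · have := lev_lt_of_lt hj' h2; omega
    rwa [card_range] at h1
  · intro q _
    rw [← hsum q]
    congr 1
    ext w
    simp only [mem_filter]
    exact ⟨fun h => ⟨h.1, hz2 w h.1, h.2⟩, fun h => ⟨h.1, h.2.2⟩⟩

section chain

variable {z : ℝ} {l : ι} {d : ℕ} {c : ℕ → ι}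

lemma Chn.slope (h : Chn P a b k z l d c) {m : ℕ} (hm : m < d) : a (c (m + 1)) < a (c m) :=
  (mem_VV.mp (h.vert m hm)).2.2.1

lemma Chn.slope_anti (h : Chn P a b k z l d c) : ∀ j m : ℕ, m + (j + 1) ≤ d →
    a (c (m + (j + 1))) < a (c m) := by
  intro j
  induction j with
  | zero => intro m hm; exact h.slope (by omega)
  | succ j ih =>
    intro m hm
    have h1 := ih m (by omega)
    have h2 := h.slope (m := m + (j + 1)) (by omega)
    have e : m + (j + 1 + 1) = m + (j + 1) + 1 := by ring
    rw [e]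
    exact h2.trans h1

lemma Chn.slope_lt (h : Chn P a b k z l d c) {m m' : ℕ} (hm : m < m') (hm' : m' ≤ d) :
    a (c m') < a (c m) := by
  obtain ⟨j, rfl⟩ : ∃ j, m' = m + (j + 1) := ⟨m' - m - 1, by omega⟩
  exact h.slope_anti j m hm'

lemma Chn.injOn (h : Chn P a b k z l d c) {m m' : ℕ} (hm : m ≤ d) (hm' : m' ≤ d)
    (he : c m = c m') : m = m' := by
  rcases lt_trichotomy m m' with h1 | h1 | h1
  · have := h.slope_lt h1 hm'; rw [he] at this; exact absurd this (lt_irrefl _)
  · exact h1
  · have := h.slope_lt h1 hm; rw [he] at this; exact absurd this (lt_irrefl _)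

lemma ht_le_right {i j : ι} {x0 x : ℝ} (ha : a j < a i) (h0 : ht a b i x0 = ht a b j x0)
    (hx : x0 ≤ x) : ht a b j x ≤ ht a b i x := by
  have h1 := ht_sub (a := a) (b := b) i j x x0
  have := mul_nonneg (sub_nonneg.mpr ha.le) (sub_nonneg.mpr hx)
  linarith

lemma ht_le_left {i j : ι} {x0 x : ℝ} (ha : a j < a i) (h0 : ht a b i x0 = ht a b j x0)
    (hx : x ≤ x0) : ht a b i x ≤ ht a b j x := by
  have h1 := ht_sub (a := a) (b := b) i j x x0
  have := mul_nonneg (sub_nonneg.mpr ha.le) (sub_nonneg.mpr hx)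
  nlinarith

lemma Chn.right (h : Chn P a b k z l d c) : ∀ m, m + 1 ≤ d → ∀ x, xc a b (c m) (c (m + 1)) ≤ x →
    ∀ m' ≤ m + 1, ht a b (c (m + 1)) x ≤ ht a b (c m') x := by
  intro m
  induction m with
  | zero =>
    intro hm x hx m' hm'
    rcases Nat.le_one_iff_eq_zero_or_eq_one.mp hm' with rfl | rfl
    · exact ht_le_right (h.slope (by omega)) (ht_xc (h.slope (by omega)).ne') hx
    · exact le_rfl
  | succ m ih =>
    intro hm x hx m' hm'
    have h1 : ht a b (c (m + 1 + 1)) x ≤ ht a b (c (m + 1)) x :=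
      ht_le_right (h.slope (by omega)) (ht_xc (h.slope (by omega)).ne') hx
    rcases Nat.le_succ_iff.mp hm' with h2 | h2
    · exact h1.trans (ih (by omega) x ((h.mono m (by omega)).le.trans hx) m' h2)
    · rw [h2]

lemma Chn.left (h : Chn P a b k z l d c) : ∀ j m, m + (j + 1) ≤ d → ∀ x,
    x ≤ xc a b (c m) (c (m + 1)) → ht a b (c m) x ≤ ht a b (c (m + (j + 1))) x := by
  intro j
  induction j with
  | zero =>
    intro m hm x hx
    exact ht_le_left (h.slope (by omega)) (ht_xc (h.slope (by omega)).ne') hx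
  | succ j ih =>
    intro m hm x hx
    have h1 : ht a b (c m) x ≤ ht a b (c (m + 1)) x :=
      ht_le_left (h.slope (by omega)) (ht_xc (h.slope (by omega)).ne') hx
    have h2 := ih (m + 1) (by omega) x (hx.trans (h.mono m (by omega)).le)
    have e : m + 1 + (j + 1) = m + (j + 1 + 1) := by ring
    rw [e] at h2
    exact h1.trans h2

/-- every line of a chain is somewhere the lowest line of the chain -/
lemma Chn.low (h : Chn P a b k z l d c) {m : ℕ} (hm : m ≤ d) :
    ∃ x, ∀ m' ≤ d, ht a b (c m) x ≤ ht a b (c m') x := by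
  rcases hm.lt_or_eq with h1 | h1
  · refine ⟨xc a b (c m) (c (m + 1)), fun m' hm' => ?_⟩
    rcases lt_trichotomy m m' with h2 | h2 | h2
    · obtain ⟨j, rfl⟩ : ∃ j, m' = m + (j + 1) := ⟨m' - m - 1, by omega⟩
      exact h.left j m hm' _ le_rfl
    · rw [h2]
    · obtain ⟨m0, rfl⟩ : ∃ m0, m = m0 + 1 := ⟨m - 1, by omega⟩
      exact h.right m0 hm _ (h.mono m0 (by omega)).le m' h2.le
  · rcases Nat.eq_zero_or_pos d with h2 | h2
    · refine ⟨0, fun m' hm' => ?_⟩
      have : m' = m := by omega
      rw [this]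
    · obtain ⟨m0, rfl⟩ : ∃ m0, m = m0 + 1 := ⟨m - 1, by omega⟩
      exact ⟨xc a b (c m0) (c (m0 + 1)), fun m' hm' => h.right m0 hm _ le_rfl m' (by omega)⟩

lemma Chn.mem (h : Chn P a b k z l d c) (hl : l ∈ P) {m : ℕ} (hm : m ≤ d) : c m ∈ P := by
  rcases hm.lt_or_eq with h1 | h1
  · exact (mem_VV.mp (h.vert m h1)).1
  · rw [h1, h.last]; exact hl

/-- a set of indices of a chain gives a lower family -/
lemma Chn.lowFam [DecidableEq ι] (h : Chn P a b k z l d c) (S : Finset ℕ) (hS : ∀ m ∈ S, m ≤ d) :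
    LowFam a b (S.image c) ∧ #(S.image c) = #S := by
  refine ⟨?_, card_image_of_injOn fun m hm m' hm' he => h.injOn (hS m hm) (hS m' hm') he⟩
  intro i hi
  rw [mem_image] at hi
  obtain ⟨m, hm, rfl⟩ := hi
  obtain ⟨x, hx⟩ := h.low (hS m hm)
  refine ⟨x, fun j hj => ?_⟩
  rw [mem_image] at hj
  obtain ⟨m', hm', rfl⟩ := hj
  exact hx m' (hS m' hm')

end chain

/-- more than `(k + 1) t` crossings with exactly `k` lines below: a chain of `t + 2` lines -/
theorem long_chain (hS : Simple P a b) {t : ℕ} (ht' : (k + 1) * t < #(VV P a b k)) :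
    ∃ (z : ℝ) (l : ι) (d : ℕ) (c : ℕ → ι), t + 1 ≤ d ∧ l ∈ P ∧ Chn P a b k z l d c := by
  classical
  obtain ⟨L, D, C, z, hL, hLP, hC, hsum⟩ := chains hS k
  by_contra hcon
  push Not at hcon
  have h1 : ∀ l ∈ L, D l ≤ t := by
    intro l hl
    by_contra h2
    exact hcon z l (D l) (C l) (by omega) (hLP hl) (hC l hl)
  have h2 := hsum (fun _ => True)
  simp only [filter_true, card_range] at h2
  have h3 : ∑ l ∈ L, D l ≤ #L * t := by
    rw [← smul_eq_mul]
    exact sum_le_card_nsmul _ _ _ h1
  have h4 : #L * t ≤ (k + 1) * t := Nat.mul_le_mul_right _ hL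
  omega

/-- more than `(k + 1) t` crossings whose line of larger slope is in `B`: a lower family of
`t + 1` lines of `B` -/
theorem long_first (hS : Simple P a b) {t : ℕ} (B : ι → Prop) [DecidablePred B]
    (ht' : (k + 1) * t < #{w ∈ VV P a b k | B w.1}) :
    ∃ T : Finset ι, T ⊆ P ∧ (∀ i ∈ T, B i) ∧ t + 1 ≤ #T ∧ LowFam a b T := by
  classical
  obtain ⟨L, D, C, z, hL, hLP, hC, hsum⟩ := chains hS k
  by_contra hcon
  push Not at hcon
  have h1 : ∀ l ∈ L, #{m ∈ range (D l) | B (C l m)} ≤ t := by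
    intro l hl
    by_contra h2
    obtain ⟨h3, h4⟩ := (hC l hl).lowFam ({m ∈ range (D l) | B (C l m)})
      (fun m hm => (mem_range.mp (mem_filter.mp hm).1).le)
    refine hcon _ ?_ ?_ (by rw [h4]; omega) h3
    · intro i hi
      rw [mem_image] at hi
      obtain ⟨m, hm, rfl⟩ := hi
      exact (hC l hl).mem (hLP hl) (mem_range.mp (mem_filter.mp hm).1).le
    · intro i hi
      rw [mem_image] at hi
      obtain ⟨m, hm, rfl⟩ := hi
      exact (mem_filter.mp hm).2
  have h2 := hsum (fun w => B w.1)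
  simp only at h2
  have h3 : ∑ l ∈ L, #{m ∈ range (D l) | B (C l m)} ≤ #L * t := by
    rw [← smul_eq_mul]
    exact sum_le_card_nsmul _ _ _ h1
  have h4 : #L * t ≤ (k + 1) * t := Nat.mul_le_mul_right _ hL
  omega

/-- more than `(k + 1) t` crossings whose line of smaller slope is in `B`: a lower family of
`t + 1` lines of `B` -/
theorem long_second (hS : Simple P a b) {t : ℕ} (B : ι → Prop) [DecidablePred B]
    (ht' : (k + 1) * t < #{w ∈ VV P a b k | B w.2}) :
    ∃ T : Finset ι, T ⊆ P ∧ (∀ i ∈ T, B i) ∧ t + 1 ≤ #T ∧ LowFam a b T := by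
  classical
  obtain ⟨L, D, C, z, hL, hLP, hC, hsum⟩ := chains hS k
  by_contra hcon
  push Not at hcon
  have h1 : ∀ l ∈ L, #{m ∈ range (D l) | B (C l (m + 1))} ≤ t := by
    intro l hl
    by_contra h2
    obtain ⟨h3, h4⟩ := (hC l hl).lowFam (({m ∈ range (D l) | B (C l (m + 1))}).image (· + 1))
      (fun m hm => by
        rw [mem_image] at hm
        obtain ⟨m', hm', rfl⟩ := hm
        exact Nat.succ_le_of_lt (mem_range.mp (mem_filter.mp hm').1))
    rw [card_image_of_injective _ (add_left_injective 1)] at h4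
    refine hcon _ ?_ ?_ (by rw [h4]; omega) h3
    · intro i hi
      simp only [mem_image] at hi
      obtain ⟨m, ⟨m', hm', rfl⟩, rfl⟩ := hi
      exact (hC l hl).mem (hLP hl) (Nat.succ_le_of_lt (mem_range.mp (mem_filter.mp hm').1))
    · intro i hi
      simp only [mem_image] at hi
      obtain ⟨m, ⟨m', hm', rfl⟩, rfl⟩ := hi
      exact (mem_filter.mp hm').2
  have h2 := hsum (fun w => B w.2)
  simp only at h2
  have h3 : ∑ l ∈ L, #{m ∈ range (D l) | B (C l (m + 1))} ≤ #L * t := by
    rw [← smul_eq_mul]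
    exact sum_le_card_nsmul _ _ _ h1
  have h4 : #L * t ≤ (k + 1) * t := Nat.mul_le_mul_right _ hL
  omega

/-! ### the rotation by 180 degrees -/

lemma ht_rot (i : ι) (x : ℝ) : ht a (fun i => - b i) i x = - ht a b i (-x) := by
  unfold ht; ring

lemma xc_rot (i j : ι) : xc a (fun i => - b i) i j = - xc a b i j := by
  unfold xc
  rw [show (- b j - - b i : ℝ) = -(b j - b i) by ring, neg_div]

lemma Simple.rot (hS : Simple P a b) : Simple P a (fun i => - b i) := by
  refine ⟨fun i hi j hj hij h h' => hS.ne i hi j hj hij h (neg_injective h'), ?_⟩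
  intro i hi j hj l hl hij hil hjl x h
  rw [ht_rot, ht_rot, neg_inj] at h
  rw [ht_rot, ht_rot, Ne, neg_inj]
  exact hS.no3 i hi j hj l hl hij hil hjl _ h

/-- at a crossing all but two lines are strictly below or strictly above -/
lemma card3 (hS : Simple P a b) {i j : ι} (hi : i ∈ P) (hj : j ∈ P) (hij : i ≠ j) {x : ℝ}
    (h : ht a b i x = ht a b j x) :
    lev P a b i x + #{l ∈ P | ht a b i x < ht a b l x} + 2 = #P := by
  classical
  have h1 : P = {l ∈ P | ht a b l x < ht a b i x} ∪ {l ∈ P | ht a b i x < ht a b l x} ∪ {i, j} := by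
    ext l
    simp only [mem_union, mem_filter, mem_insert, mem_singleton]
    constructor
    · intro hl
      by_cases h1 : l = i
      · right; left; exact h1
      · by_cases h2 : l = j
        · right; right; exact h2
        · left
          rcases lt_or_gt_of_ne (hS.no3 i hi j hj l hl hij (Ne.symm h1) (Ne.symm h2) x h)
            with h3 | h3
          · right; exact ⟨hl, h3⟩
          · left; exact ⟨hl, h3⟩
    · rintro ((h | h) | (h | h))
      · exact h.1
      · exact h.1
      · rw [h]; exact hi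
      · rw [h]; exact hj
  have h2 : #P = #({l ∈ P | ht a b l x < ht a b i x} ∪ {l ∈ P | ht a b i x < ht a b l x} ∪
      {i, j}) := by rw [← h1]
  unfold lev
  rw [Finset.card_union_of_disjoint, Finset.card_union_of_disjoint, Finset.card_pair hij] at h2
  · exact h2.symm
  · rw [Finset.disjoint_left]
    intro l hl hl'
    simp only [mem_filter] at hl hl'
    linarith [hl.2, hl'.2]
  · rw [Finset.disjoint_left]
    intro l hl hl'
    simp only [mem_union, mem_filter, mem_insert, mem_singleton] at hl hl'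
    rcases hl' with rfl | rfl
    · rcases hl with hl | hl <;> linarith [hl.2]
    · rcases hl with hl | hl <;> linarith [hl.2]

lemma lev_rot (i : ι) (x : ℝ) :
    lev P a (fun i => - b i) i x = #{l ∈ P | ht a b i (-x) < ht a b l (-x)} := by
  unfold lev
  simp only [ht_rot, neg_lt_neg_iff]

lemma VV_rot (hS : Simple P a b) {k' : ℕ} (hk : k + k' + 2 = #P) :
    VV P a (fun i => - b i) k' = VV P a b k := by
  ext w
  rw [mem_VV, mem_VV]
  refine and_congr_right fun h1 => and_congr_right fun h2 => and_congr_right fun h3 => ?_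
  have hne : w.1 ≠ w.2 := by intro h; rw [h] at h3; exact lt_irrefl _ h3
  have h4 := card3 hS h1 h2 hne (ht_xc (b := b) h3.ne')
  rw [lev_rot, xc_rot, neg_neg]
  omega

lemma LowFam.rot {T : Finset ι} (h : LowFam a (fun i => - b i) T) : UpFam a b T := by
  intro i hi
  obtain ⟨x, hx⟩ := h i hi
  refine ⟨-x, fun j hj => ?_⟩
  have := hx j hj
  rw [ht_rot, ht_rot, neg_le_neg_iff] at this
  exact this

end Pool.Agent.TH3.CH
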