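import Pool.Agent.TH3.CH.Local

/-!
# The concave chains of the crossings with exactly `k` lines below

The crossings of a simple finite family of lines with exactly `k` lines strictly below are
covered, without repetition, by at most `k + 1` chains: at consecutive crossings of a chain one
passes to a line of smaller slope, moving to the right.
-/

set_option autoImplicit false

namespace Pool.Agent.TH3.CH

open Finset Filter Topology

variable {ι : Type*}

open scoped Classical in
/-- the crossings with exactly `k` lines strictly below; the first line has the larger slope -/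
noncomputable def VV (P : Finset ι) (a b : ι → ℝ) (k : ℕ) : Finset (ι × ι) :=
  {w ∈ P ×ˢ P | a w.2 < a w.1 ∧ lev P a b w.1 (xc a b w.1 w.2) = k}

/-- the lines with at most `k` lines strictly below over `z` -/
noncomputable def Low (P : Finset ι) (a b : ι → ℝ) (k : ℕ) (z : ℝ) : Finset ι :=
  {i ∈ P | lev P a b i z ≤ k}

variable {P : Finset ι} {a b : ι → ℝ} {k : ℕ}

lemma mem_VV {w : ι × ι} : w ∈ VV P a b k ↔
    w.1 ∈ P ∧ w.2 ∈ P ∧ a w.2 < a w.1 ∧ lev P a b w.1 (xc a b w.1 w.2) = k := by
  classical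
  unfold VV
  rw [mem_filter, mem_product, and_assoc]

lemma mem_Low {i : ι} {z : ℝ} : i ∈ Low P a b k z ↔ i ∈ P ∧ lev P a b i z ≤ k := by
  unfold Low
  rw [mem_filter]

lemma lev_lt_of_lt {i j : ι} {x : ℝ} (hi : i ∈ P) (h : ht a b i x < ht a b j x) :
    lev P a b i x < lev P a b j x := by
  unfold lev
  apply card_lt_card
  refine ⟨fun l hl => ?_, fun hsub => ?_⟩
  · rw [mem_filter] at hl ⊢
    exact ⟨hl.1, hl.2.trans h⟩
  · have : i ∈ ({l ∈ P | ht a b l x < ht a b i x} : Finset ι) := hsub (mem_filter.mpr ⟨hi, h⟩)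
    exact absurd (mem_filter.mp this).2 (lt_irrefl _)

/-- different crossings with exactly `k` lines below have different abscissae -/
lemma xc_inj (hS : Simple P a b) {v w : ι × ι} (hv : v ∈ VV P a b k) (hw : w ∈ VV P a b k)
    (h : xc a b v.1 v.2 = xc a b w.1 w.2) : v = w := by
  rw [mem_VV] at hv hw
  obtain ⟨hv1, hv2, hv3, hv4⟩ := hv
  obtain ⟨hw1, hw2, hw3, hw4⟩ := hw
  set x := xc a b v.1 v.2 with hx
  rw [← h] at hw4
  have e1 : ht a b v.1 x = ht a b v.2 x := ht_xc hv3.ne'
  have e2 : ht a b w.1 x = ht a b w.2 x := by rw [h]; exact ht_xc hw3.ne'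
  have e3 : ht a b v.1 x = ht a b w.1 x := by
    rcases lt_trichotomy (ht a b v.1 x) (ht a b w.1 x) with h1 | h1 | h1
    · have := lev_lt_of_lt hv1 h1; omega
    · exact h1
    · have := lev_lt_of_lt hw1 h1; omega
  have hne : v.1 ≠ v.2 := by intro h1; rw [h1] at hv3; exact lt_irrefl _ hv3
  have hne' : w.1 ≠ w.2 := by intro h1; rw [h1] at hw3; exact lt_irrefl _ hw3
  have c1 : w.1 = v.1 ∨ w.1 = v.2 := by
    by_contra hcon
    push Not at hcon
    exact hS.no3 v.1 hv1 v.2 hv2 w.1 hw1 hne hcon.1.symm hcon.2.symm x e1 e3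
  have c2 : w.2 = v.1 ∨ w.2 = v.2 := by
    by_contra hcon
    push Not at hcon
    exact hS.no3 v.1 hv1 v.2 hv2 w.2 hw2 hne hcon.1.symm hcon.2.symm x e1 (e3.trans e2)
  rcases c1 with c1 | c1 <;> rcases c2 with c2 | c2
  · exact absurd (c1.trans c2.symm) hne'
  · exact Prod.ext c1.symm c2.symm
  · exfalso
    rw [c1, c2] at hw3
    linarith
  · exact absurd (c1.trans c2.symm) hne'

/-- the `(≤ k)`-region changes at one crossing only by an exchange -/
lemma low_step (hS : Simple P a b) {w : ι × ι} (hw : w ∈ VV P a b k) {z' z : ℝ}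
    (h1 : z' < xc a b w.1 w.2) (h2 : xc a b w.1 w.2 < z)
    (huniq : ∀ v ∈ VV P a b k, z' ≤ xc a b v.1 v.2 → xc a b v.1 v.2 ≤ z → v = w) :
    (w.1 ∈ Low P a b k z' ∧ w.1 ∉ Low P a b k z) ∧ (w.2 ∉ Low P a b k z' ∧ w.2 ∈ Low P a b k z) ∧
    (∀ l, l ≠ w.1 → l ≠ w.2 → (l ∈ Low P a b k z' ↔ l ∈ Low P a b k z)) := by
  classical
  have hw' := mem_VV.mp hw
  obtain ⟨hi, hj, ha, hk⟩ := hw'
  set x0 := xc a b w.1 w.2 with hx0
  have he : ht a b w.1 x0 = ht a b w.2 x0 := ht_xc ha.ne'
  have hne : w.1 ≠ w.2 := by intro h; rw [h] at ha; exact lt_irrefl _ ha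
  have hkj : lev P a b w.2 x0 = k := by rw [← lev_congr he]; exact hk
  have hzz : z' < z := h1.trans h2
  refine ⟨⟨?_, ?_⟩, ⟨?_, ?_⟩, ?_⟩
  · -- `w.1` is low at `z'`
    by_contra hcon
    have h3 : k < lev P a b w.1 z' := by
      by_contra h4; exact hcon (mem_Low.mpr ⟨hi, not_lt.mp h4⟩)
    obtain ⟨j', hj', h4, h5, h6, h7⟩ := enter_exists hS hi h1 h3 hk.le
    have h8 := huniq (j', w.1) (mem_VV.mpr ⟨hj', hi, h4, h7⟩) h5.le (h6.trans h2.le)
    have h9 := congrArg Prod.snd h8
    exact hne h9
  · -- `w.1` is not low at `z`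
    intro hcon
    obtain ⟨u, hu, hu2⟩ := (mem_nhdsGT_iff_exists_Ioo_subset (a := x0)).mp (lev_right P a b w.1 x0)
    obtain ⟨x, hx⟩ := exists_between (lt_min hu h2)
    have hxu : x < u := lt_of_lt_of_le hx.2 (min_le_left _ _)
    have hxz : x < z := lt_of_lt_of_le hx.2 (min_le_right _ _)
    have hev := hu2 ⟨hx.1, hxu⟩
    simp only [Set.mem_ofPred_eq] at hev
    have h3 : 0 < #{l ∈ P | ht a b l x0 = ht a b w.1 x0 ∧ a l < a w.1} :=
      card_pos.mpr ⟨w.2, mem_filter.mpr ⟨hj, he.symm, ha⟩⟩
    have h4 : k < lev P a b w.1 x := by omega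
    obtain ⟨j', hj', h5, h6, h7, h8⟩ := enter_exists hS hi hxz h4 (mem_Low.mp hcon).2
    have h9 := huniq (j', w.1) (mem_VV.mpr ⟨hj', hi, h5, h8⟩) (h1.le.trans (hx.1.le.trans h6.le)) h7
    exact hne (congrArg Prod.snd h9)
  · -- `w.2` is not low at `z'`
    intro hcon
    obtain ⟨u, hu, hu2⟩ := (mem_nhdsLT_iff_exists_Ioo_subset (a := x0)).mp (lev_left P a b w.2 x0)
    obtain ⟨x, hx⟩ := exists_between (max_lt hu h1)
    have hxu : u < x := lt_of_le_of_lt (le_max_left _ _) hx.1
    have hxz : z' < x := lt_of_le_of_lt (le_max_right _ _) hx.1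
    have hev := hu2 ⟨hxu, hx.2⟩
    simp only [Set.mem_ofPred_eq] at hev
    have h3 : 0 < #{l ∈ P | ht a b l x0 = ht a b w.2 x0 ∧ a w.2 < a l} :=
      card_pos.mpr ⟨w.1, mem_filter.mpr ⟨hi, he, ha⟩⟩
    have h4 : k < lev P a b w.2 x := by omega
    obtain ⟨j', hj', h5, h6, h7, h8⟩ := exit_exists hS hj hxz (mem_Low.mp hcon).2 h4
    have h9 := huniq (w.2, j') (mem_VV.mpr ⟨hj, hj', h5, h8⟩) h6 (h7.le.trans (hx.2.le.trans h2.le))
    exact hne (congrArg Prod.fst h9).symm
  · -- `w.2` is low at `z`
    by_contra hcon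
    have h3 : k < lev P a b w.2 z := by
      by_contra h4; exact hcon (mem_Low.mpr ⟨hj, not_lt.mp h4⟩)
    obtain ⟨j', hj', h4, h5, h6, h7⟩ := exit_exists hS hj h2 hkj.le h3
    have h8 := huniq (w.2, j') (mem_VV.mpr ⟨hj, hj', h4, h7⟩) (h1.le.trans h5) h6.le
    exact hne (congrArg Prod.fst h8).symm
  · intro l hl1 hl2
    by_cases hlP : l ∈ P
    · constructor
      · intro h3
        by_contra hcon
        have h4 : k < lev P a b l z := by
          by_contra h4; exact hcon (mem_Low.mpr ⟨hlP, not_lt.mp h4⟩)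
        obtain ⟨j', hj', h5, h6, h7, h8⟩ := exit_exists hS hlP hzz (mem_Low.mp h3).2 h4
        have h9 := huniq (l, j') (mem_VV.mpr ⟨hlP, hj', h5, h8⟩) h6 h7.le
        exact hl1 (congrArg Prod.fst h9)
      · intro h3
        by_contra hcon
        have h4 : k < lev P a b l z' := by
          by_contra h4; exact hcon (mem_Low.mpr ⟨hlP, not_lt.mp h4⟩)
        obtain ⟨j', hj', h5, h6, h7, h8⟩ := enter_exists hS hlP hzz h4 (mem_Low.mp h3).2
        have h9 := huniq (j', l) (mem_VV.mpr ⟨hj', hlP, h5, h8⟩) h6.le h7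
        exact hl2 (congrArg Prod.snd h9)
    · constructor <;> intro h3 <;> exact absurd (mem_Low.mp h3).1 hlP

/-- a chain of crossings with exactly `k` lines below, to the left of `z`, ending in the
line `l` -/
structure Chn (P : Finset ι) (a b : ι → ℝ) (k : ℕ) (z : ℝ) (l : ι) (d : ℕ) (c : ℕ → ι) :
    Prop where
  last : c d = l
  vert : ∀ m < d, (c m, c (m + 1)) ∈ VV P a b k
  mono : ∀ m, m + 1 < d → xc a b (c m) (c (m + 1)) < xc a b (c (m + 1)) (c (m + 2))
  bound : ∀ m < d, xc a b (c m) (c (m + 1)) < z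

/-- **the chain decomposition** over the half line to the left of `z` -/
theorem chains_lt (hS : Simple P a b) (n : ℕ) : ∀ z : ℝ,
    #{w ∈ VV P a b k | xc a b w.1 w.2 < z} = n → (∀ w ∈ VV P a b k, xc a b w.1 w.2 ≠ z) →
    ∃ (D : ι → ℕ) (C : ι → ℕ → ι), (∀ l ∈ Low P a b k z, Chn P a b k z l (D l) (C l)) ∧
      ∀ (q : ι × ι → Prop) [DecidablePred q],
        #{w ∈ VV P a b k | xc a b w.1 w.2 < z ∧ q w} =
          ∑ l ∈ Low P a b k z, #{m ∈ range (D l) | q (C l m, C l (m + 1))} := by
  classical
  induction n with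
  | zero =>
    intro z hz _
    refine ⟨fun _ => 0, fun l _ => l, ?_, ?_⟩
    · intro l hl
      exact ⟨rfl, fun m hm => absurd hm (Nat.not_lt_zero _), fun m hm => absurd hm (Nat.not_lt_zero _),
        fun m hm => absurd hm (Nat.not_lt_zero _)⟩
    · intro q _
      rw [filter_and, card_eq_zero.mp hz, empty_inter, card_empty]
      simp
  | succ n ih =>
    intro z hz hgen
    set W := ({w ∈ VV P a b k | xc a b w.1 w.2 < z} : Finset (ι × ι)) with hW
    have hWne : W.Nonempty := by rw [← card_pos]; omega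
    obtain ⟨w, hwW, hmax⟩ := exists_max_image W (fun w => xc a b w.1 w.2) hWne
    have hw : w ∈ VV P a b k := (mem_filter.mp hwW).1
    have hwz : xc a b w.1 w.2 < z := (mem_filter.mp hwW).2
    have hlt : ∀ v ∈ W.erase w, xc a b v.1 v.2 < xc a b w.1 w.2 := by
      intro v hv
      rw [mem_erase] at hv
      refine lt_of_le_of_ne (hmax v hv.2) fun h => hv.1 ?_
      exact xc_inj hS (mem_filter.mp hv.2).1 hw h
    have hev : ∀ᶠ z' in 𝓝[<] (xc a b w.1 w.2), z' < xc a b w.1 w.2 ∧
        ∀ v ∈ W.erase w, xc a b v.1 v.2 < z' := by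
      refine Filter.Eventually.and self_mem_nhdsWithin ?_
      rw [Filter.eventually_all_finset]
      intro v hv
      exact nhdsWithin_le_nhds (eventually_gt_nhds (hlt v hv))
    obtain ⟨z', hz'1, hz'2⟩ := hev.exists
    have hzz : z' < z := hz'1.trans hwz
    -- the vertices left of `z'`
    have hWe : ({v ∈ VV P a b k | xc a b v.1 v.2 < z'} : Finset (ι × ι)) = W.erase w := by
      ext v
      rw [mem_filter, mem_erase, hW, mem_filter]
      constructor
      · rintro ⟨h1, h2⟩
        refine ⟨?_, h1, h2.trans hzz⟩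
        rintro rfl
        exact absurd h2 (not_lt.mpr hz'1.le)
      · rintro ⟨h1, h2, h3⟩
        exact ⟨h2, hz'2 v (mem_erase.mpr ⟨h1, mem_filter.mpr ⟨h2, h3⟩⟩)⟩
    have huniq : ∀ v ∈ VV P a b k, z' ≤ xc a b v.1 v.2 → xc a b v.1 v.2 ≤ z → v = w := by
      intro v hv h1 h2
      by_contra hvw
      have h3 : v ∈ W := mem_filter.mpr ⟨hv, lt_of_le_of_ne h2 (hgen v hv)⟩
      exact absurd (hz'2 v (mem_erase.mpr ⟨hvw, h3⟩)) (not_lt.mpr h1)
    have hgen' : ∀ v ∈ VV P a b k, xc a b v.1 v.2 ≠ z' := by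
      intro v hv h
      have h1 := huniq v hv h.ge (h.le.trans hzz.le)
      rw [h1] at h
      exact hz'1.ne h.symm
    obtain ⟨⟨s1, s2⟩, ⟨s3, s4⟩, s5⟩ := low_step hS hw hz'1 hwz huniq
    obtain ⟨D, C, hC, hsum⟩ := ih z' (by rw [hWe, card_erase_of_mem hwW, hz]; rfl) hgen'
    have hne : w.1 ≠ w.2 := by rintro h; rw [h] at s2; exact s2 s4
    have hC1 := hC w.1 s1
    refine ⟨fun l => if l = w.2 then D w.1 + 1 else D l,
      fun l => if l = w.2 then (fun m => if m ≤ D w.1 then C w.1 m else w.2) else C l, ?_, ?_⟩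
    · intro l hl
      by_cases hlw : l = w.2
      · subst hlw
        simp only [if_true]
        refine ⟨by simp, ?_, ?_, ?_⟩
        · intro m hm
          rcases Nat.lt_succ_iff_lt_or_eq.mp hm with h | h
          · simp only [h.le, Nat.succ_le_of_lt h, if_true]
            exact hC1.vert m h
          · subst h
            simp only [le_refl, if_true, hC1.last]
            rw [if_neg (by omega)]
            exact hw
        · intro m hm
          rcases Nat.lt_succ_iff_lt_or_eq.mp hm with h | h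
          · rw [if_pos (by omega), if_pos (by omega)]
            by_cases h2 : m + 1 < D w.1
            · rw [if_pos (by omega)]
              exact hC1.mono m h2
            · omega
          · rw [if_pos (by omega), if_pos (by omega), if_neg (by omega)]
            have h3 : C w.1 (m + 1) = w.1 := by rw [h]; exact hC1.last
            have h4 := hC1.bound m (by omega)
            rw [h3] at h4 ⊢
            exact h4.trans hz'1
        · intro m hm
          rcases Nat.lt_succ_iff_lt_or_eq.mp hm with h | h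
          · rw [if_pos (by omega), if_pos (by omega)]
            exact (hC1.bound m h).trans hzz
          · subst h
            rw [if_pos le_rfl, if_neg (by omega), hC1.last]
            exact hwz
      · simp only [if_neg hlw]
        have hlw1 : l ≠ w.1 := by rintro rfl; exact s2 hl
        have hl' := (s5 l hlw1 hlw).mpr hl
        have h := hC l hl'
        exact ⟨h.last, h.vert, h.mono, fun m hm => (h.bound m hm).trans hzz⟩
    · intro q _
      have hLow : Low P a b k z = insert w.2 ((Low P a b k z').erase w.1) := by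
        ext l
        rw [mem_insert, mem_erase]
        by_cases h1 : l = w.2
        · subst h1; simp [s4]
        · by_cases h2 : l = w.1
          · subst h2; simp [s2, hne]
          · simp [h1, h2, s5 l h2 h1]
      have hnot : w.2 ∉ (Low P a b k z').erase w.1 := fun h => s3 (mem_erase.mp h).2
      have hins : W = insert w (W.erase w) := (insert_erase hwW).symm
      have hL : #{v ∈ VV P a b k | xc a b v.1 v.2 < z ∧ q v} =
          #{v ∈ VV P a b k | xc a b v.1 v.2 < z' ∧ q v} + if q w then 1 else 0 := by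
        rw [← filter_filter, ← filter_filter, hWe, ← hW]
        conv_lhs => rw [hins]
        rw [filter_insert]
        split_ifs with hq
        · rw [card_insert_of_notMem]
          intro h
          exact absurd (mem_filter.mp h).1 (notMem_erase _ _)
        · rfl
      rw [hL, hsum q, hLow, sum_insert hnot]
      have e1 : ∑ l ∈ Low P a b k z', #{m ∈ range (D l) | q (C l m, C l (m + 1))} =
          #{m ∈ range (D w.1) | q (C w.1 m, C w.1 (m + 1))} +
            ∑ l ∈ (Low P a b k z').erase w.1, #{m ∈ range (D l) | q (C l m, C l (m + 1))} :=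
        (add_sum_erase _ _ s1).symm
      have e2 : ∑ l ∈ (Low P a b k z').erase w.1,
          #{m ∈ range (if l = w.2 then D w.1 + 1 else D l) | q ((if l = w.2 then
            (fun m => if m ≤ D w.1 then C w.1 m else w.2) else C l) m, (if l = w.2 then
            (fun m => if m ≤ D w.1 then C w.1 m else w.2) else C l) (m + 1))} =
          ∑ l ∈ (Low P a b k z').erase w.1, #{m ∈ range (D l) | q (C l m, C l (m + 1))} := by
        refine sum_congr rfl fun l hl => ?_
        have hlw : l ≠ w.2 := by rintro rfl; exact hnot hl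
        simp only [if_neg hlw]
      have e3 : #{m ∈ range (D w.1 + 1) | q (if m ≤ D w.1 then C w.1 m else w.2,
            if m + 1 ≤ D w.1 then C w.1 (m + 1) else w.2)} =
          #{m ∈ range (D w.1) | q (C w.1 m, C w.1 (m + 1))} + if q w then 1 else 0 := by
        rw [range_add_one, filter_insert]
        have e4 : ({m ∈ range (D w.1) | q (if m ≤ D w.1 then C w.1 m else w.2,
            if m + 1 ≤ D w.1 then C w.1 (m + 1) else w.2)} : Finset ℕ) =
            {m ∈ range (D w.1) | q (C w.1 m, C w.1 (m + 1))} := by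
          refine filter_congr fun m hm => ?_
          rw [if_pos (mem_range.mp hm).le, if_pos (Nat.succ_le_of_lt (mem_range.mp hm))]
        have e5 : ¬ D w.1 + 1 ≤ D w.1 := by omega
        simp only [le_refl, if_true, hC1.last, if_neg e5]
        rw [e4]
        split_ifs with hq
        · rw [card_insert_of_notMem]
          intro h
          exact absurd (mem_range.mp (mem_filter.mp h).1) (lt_irrefl _)
        · rfl
      simp only [if_true]
      rw [e1, e2, e3]
      ring

end Pool.Agent.TH3.CH
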