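import Pool.Agent.TH3.CH.Final

/-!
# The halving lines through the points of a convex polygon
-/

set_option autoImplicit false

namespace Pool.Agent.TH3.CH

open Finset Filter Topology
open Pool.Agent.W296.HL (Line GeneralPosition IsBisector Gen Hv)

variable {P : Finset (ℝ × ℝ)} {α β : ℝ}

/-- a point of a set in convex position is strictly lowest or strictly highest in some direction -/
lemma low_or_up (hN : 0 < α ^ 2 + β ^ 2) {A : Finset (ℝ × ℝ)} (hA : ConvexPosition A)
    {p : ℝ × ℝ} (hp : p ∈ A) :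
    (∃ s, ∀ q ∈ A, q ≠ p → ht (aa α β) (bb α β) p s < ht (aa α β) (bb α β) q s) ∨
    (∃ s, ∀ q ∈ A, q ≠ p → ht (aa α β) (bb α β) q s < ht (aa α β) (bb α β) p s) := by
  classical
  have hfin : ((A : Set (ℝ × ℝ)) \ {p}).Finite := A.finite_toSet.subset fun q hq => hq.1
  obtain ⟨f, u, hu1, hu2⟩ := geometric_hahn_banach_point_closed (convex_convexHull ℝ _)
    (hfin.isClosed_convexHull ℝ) (hA p hp)
  set c1 := f (1, 0) with hc1
  set c2 := f (0, 1) with hc2
  have hf : ∀ x : ℝ × ℝ, f x = c1 * x.1 + c2 * x.2 := by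
    intro x
    have : x = x.1 • ((1 : ℝ), (0 : ℝ)) + x.2 • ((0 : ℝ), (1 : ℝ)) := by
      ext <;> simp
    conv_lhs => rw [this]
    rw [map_add, map_smul, map_smul, smul_eq_mul, smul_eq_mul]; ring
  have hlt : ∀ q ∈ A, q ≠ p → c1 * p.1 + c2 * p.2 < c1 * q.1 + c2 * q.2 := by
    intro q hq hqp
    have h3 := hu2 q (subset_convexHull ℝ _ ⟨hq, hqp⟩)
    rw [hf] at h3 hu1
    linarith
  set N := α ^ 2 + β ^ 2 with hNd
  set v := (-β * c1 + α * c2) / N with hv
  set w := (α * c1 + β * c2) / N with hw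
  have hvN : v * N = -β * c1 + α * c2 := by rw [hv]; field_simp
  have hwN : w * N = α * c1 + β * c2 := by rw [hw]; field_simp
  -- the functional in terms of `aa`, `bb`
  have hkey : ∀ x : ℝ × ℝ, c1 * x.1 + c2 * x.2 = -w * aa α β x + v * bb α β x := by
    intro x
    have e1 : N * (c1 * x.1 + c2 * x.2) = N * (-w * aa α β x + v * bb α β x) := by
      unfold aa bb
      linear_combination (-(α * x.1 + β * x.2)) * hwN - (-β * x.1 + α * x.2) * hvN +
        (c1 * x.1 + c2 * x.2) * hNd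
    exact mul_left_cancel₀ hN.ne' e1
  rcases lt_trichotomy v 0 with hv0 | hv0 | hv0
  · right
    refine ⟨-w / v, fun q hq hqp => ?_⟩
    have h1 := hlt q hq hqp
    rw [hkey, hkey] at h1
    have e : ∀ x : ℝ × ℝ, -w * aa α β x + v * bb α β x =
        v * ht (aa α β) (bb α β) x (-w / v) := by
      intro x
      unfold ht
      field_simp [hv0.ne]
    rw [e, e] at h1
    exact lt_of_mul_lt_mul_left (a := -v) (by linarith) (by linarith)
  · -- the functional is a multiple of `aa`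
    left
    have h1 : ∀ q ∈ A, q ≠ p → -w * aa α β p < -w * aa α β q := by
      intro q hq hqp
      have h1 := hlt q hq hqp
      rw [hkey, hkey, hv0, zero_mul, zero_mul, add_zero, add_zero] at h1
      exact h1
    rcases lt_trichotomy w 0 with hw0 | hw0 | hw0
    · -- `aa p < aa q`
      have h2 : ∀ q ∈ A, q ≠ p → aa α β p < aa α β q := fun q hq hqp =>
        lt_of_mul_lt_mul_left (h1 q hq hqp) (by linarith)
      have hev : ∀ᶠ s : ℝ in atTop, ∀ q ∈ A, q ≠ p →
          ht (aa α β) (bb α β) p s < ht (aa α β) (bb α β) q s := by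
        rw [Filter.eventually_all_finset]
        intro q hq
        filter_upwards [eventually_gt_atTop (xc (aa α β) (bb α β) p q)] with s hs hqp
        have h3 := h2 q hq hqp
        have h4 := ht_sub (a := aa α β) (b := bb α β) p q s (xc (aa α β) (bb α β) p q)
        rw [ht_xc h3.ne, sub_self, add_zero] at h4
        have h5 := mul_neg_of_neg_of_pos (sub_neg.mpr h3) (sub_pos.mpr hs)
        linarith
      exact hev.exists
    · refine ⟨0, fun q hq hqp => ?_⟩
      have := h1 q hq hqp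
      rw [hw0] at this
      simp at this
    · have h2 : ∀ q ∈ A, q ≠ p → aa α β q < aa α β p := fun q hq hqp => by
        have := h1 q hq hqp
        exact lt_of_mul_lt_mul_left (a := w) (by linarith) hw0.le
      have hev : ∀ᶠ s : ℝ in atBot, ∀ q ∈ A, q ≠ p →
          ht (aa α β) (bb α β) p s < ht (aa α β) (bb α β) q s := by
        rw [Filter.eventually_all_finset]
        intro q hq
        filter_upwards [eventually_lt_atBot (xc (aa α β) (bb α β) p q)] with s hs hqp
        have h3 := h2 q hq hqp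
        have h4 := ht_sub (a := aa α β) (b := bb α β) p q s (xc (aa α β) (bb α β) p q)
        rw [ht_xc h3.ne', sub_self, add_zero] at h4
        have h5 := mul_neg_of_pos_of_neg (sub_pos.mpr h3) (sub_neg.mpr hs)
        linarith
      exact hev.exists
  · left
    refine ⟨-w / v, fun q hq hqp => ?_⟩
    have h1 := hlt q hq hqp
    rw [hkey, hkey] at h1
    have e : ∀ x : ℝ × ℝ, -w * aa α β x + v * bb α β x =
        v * ht (aa α β) (bb α β) x (-w / v) := by
      intro x
      unfold ht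
      field_simp [hv0.ne']
    rw [e, e] at h1
    exact lt_of_mul_lt_mul_left h1 hv0.le

open scoped Classical in
/-- **at most `4 n` incidences between the halving lines and a convex polygon** -/
theorem incidences (hP : GeneralPosition P) (hE : Even #P) {A : Finset (ℝ × ℝ)} (hAP : A ⊆ P)
    (hA : ConvexPosition A) :
    {z : (ℝ × ℝ) × Set (ℝ × ℝ) | z.1 ∈ A ∧ IsBisector P z.2 ∧ z.1 ∈ z.2}.ncard ≤ 4 * #P := by
  have hG := Pool.Agent.W296.HL.gen_of_gp hP
  obtain ⟨β, hβ⟩ := exists_generic P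
  have hN : 0 < (1 : ℝ) ^ 2 + β ^ 2 := by positivity
  have hS := simple_of hG hN hβ
  by_cases h0 : {L | IsBisector P L}.ncard = 0
  · have h1 : {L | IsBisector P L} = ∅ :=
      (Set.ncard_eq_zero (Pool.Agent.W296.HL.bis_finite P)).mp h0
    have h2 : {z : (ℝ × ℝ) × Set (ℝ × ℝ) | z.1 ∈ A ∧ IsBisector P z.2 ∧ z.1 ∈ z.2} = ∅ := by
      ext z
      simp only [Set.mem_ofPred_eq, Set.mem_empty_iff_false, iff_false]
      intro h
      have : z.2 ∈ {L | IsBisector P L} := h.2.1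
      rw [h1] at this
      exact this
    rw [h2, Set.ncard_empty]
    omega
  have h2 := two_mul_k hE (Nat.pos_of_ne_zero h0)
  set k := #P / 2 - 1 with hk
  set V := VV P (aa 1 β) (bb 1 β) k with hV
  have hrot : VV P (aa 1 β) (fun i => - bb 1 β i) k = V := VV_rot hS (by omega)
  set U1 : ℝ × ℝ → Prop := fun p => p ∈ A ∧ ∃ s, ∀ q ∈ A, q ≠ p →
    ht (aa 1 β) (bb 1 β) p s < ht (aa 1 β) (bb 1 β) q s with hU1
  set U2 : ℝ × ℝ → Prop := fun p => p ∈ A ∧ ∃ s, ∀ q ∈ A, q ≠ p →
    ht (aa 1 β) (bb 1 β) q s < ht (aa 1 β) (bb 1 β) p s with hU2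
  have hcov : ∀ p ∈ A, U1 p ∨ U2 p := by
    intro p hp
    rcases low_or_up hN hA hp with h | h
    · exact Or.inl ⟨hp, h⟩
    · exact Or.inr ⟨hp, h⟩
  -- a lower family of points of type `U2` has at most two elements
  have hno2 : ∀ T : Finset (ℝ × ℝ), T ⊆ P → (∀ i ∈ T, U2 i) → LowFam (aa 1 β) (bb 1 β) T →
      #T ≤ 2 := by
    intro T hT h3 h4
    refine card_le_two (fun i hi j hj => hβ i (hT hi) j (hT hj)) h4 fun i hi => ?_
    obtain ⟨h5, s, hs⟩ := h3 i hi
    exact ⟨s, fun j hj hji => hs j (h3 j hj).1 hji⟩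
  have hno1 : ∀ T : Finset (ℝ × ℝ), T ⊆ P → (∀ i ∈ T, U1 i) →
      LowFam (aa 1 β) (fun i => - bb 1 β i) T → #T ≤ 2 := by
    intro T hT h3 h4
    refine card_le_two (fun i hi j hj => hβ i (hT hi) j (hT hj)) h4 fun i hi => ?_
    obtain ⟨h5, s, hs⟩ := h3 i hi
    refine ⟨-s, fun j hj hji => ?_⟩
    rw [ht_rot, ht_rot, neg_neg, neg_lt_neg_iff]
    exact hs j (h3 j hj).1 hji
  have b1 : #{w ∈ V | U2 w.1} ≤ (k + 1) * 2 := by
    by_contra hcon
    push Not at hcon
    obtain ⟨T, h3, h4, h5, h6⟩ := long_first hS U2 hcon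
    have := hno2 T h3 h4 h6
    omega
  have b2 : #{w ∈ V | U2 w.2} ≤ (k + 1) * 2 := by
    by_contra hcon
    push Not at hcon
    obtain ⟨T, h3, h4, h5, h6⟩ := long_second hS U2 hcon
    have := hno2 T h3 h4 h6
    omega
  have b3 : #{w ∈ V | U1 w.1} ≤ (k + 1) * 2 := by
    by_contra hcon
    push Not at hcon
    obtain ⟨T, h3, h4, h5, h6⟩ := long_first hS.rot (k := k) U1 (by rw [hrot]; exact hcon)
    have := hno1 T h3 h4 h6
    omega
  have b4 : #{w ∈ V | U1 w.2} ≤ (k + 1) * 2 := by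
    by_contra hcon
    push Not at hcon
    obtain ⟨T, h3, h4, h5, h6⟩ := long_second hS.rot (k := k) U1 (by rw [hrot]; exact hcon)
    have := hno1 T h3 h4 h6
    omega
  set f1 : (ℝ × ℝ) × (ℝ × ℝ) → (ℝ × ℝ) × Set (ℝ × ℝ) := fun w => (w.1, lin w) with hf1
  set f2 : (ℝ × ℝ) × (ℝ × ℝ) → (ℝ × ℝ) × Set (ℝ × ℝ) := fun w => (w.2, lin w) with hf2
  have hsub : {z : (ℝ × ℝ) × Set (ℝ × ℝ) | z.1 ∈ A ∧ IsBisector P z.2 ∧ z.1 ∈ z.2} ⊆
      (((({w ∈ V | U2 w.1}).image f1 ∪ ({w ∈ V | U2 w.2}).image f2) ∪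
        (({w ∈ V | U1 w.1}).image f1 ∪ ({w ∈ V | U1 w.2}).image f2) :
          Finset ((ℝ × ℝ) × Set (ℝ × ℝ))) : Set ((ℝ × ℝ) × Set (ℝ × ℝ))) := by
    intro z hz
    obtain ⟨hz1, hz2, hz3⟩ := hz
    obtain ⟨w, hw, hLw⟩ := exists_VV hN hβ hz2
    have hw' := mem_VV.mp hw
    have hne : w.1 ≠ w.2 := by intro h; have := hw'.2.2.1; rw [h] at this; exact lt_irrefl _ this
    have hz4 : z.1 = w.1 ∨ z.1 = w.2 := by
      by_contra hcon
      push Not at hcon
      rw [hLw] at hz3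
      exact hG w.1 hw'.1 w.2 hw'.2.1 z.1 (hAP hz1) hne hcon.1.symm hcon.2.symm hz3
    rw [mem_coe, mem_union, mem_union, mem_union, mem_image, mem_image, mem_image, mem_image]
    rcases hz4 with h4 | h4
    · rcases hcov z.1 hz1 with h5 | h5
      · rw [h4] at h5
        exact Or.inr (Or.inl ⟨w, mem_filter.mpr ⟨hw, h5⟩, Prod.ext h4.symm hLw.symm⟩)
      · rw [h4] at h5
        exact Or.inl (Or.inl ⟨w, mem_filter.mpr ⟨hw, h5⟩, Prod.ext h4.symm hLw.symm⟩)
    · rcases hcov z.1 hz1 with h5 | h5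
      · rw [h4] at h5
        exact Or.inr (Or.inr ⟨w, mem_filter.mpr ⟨hw, h5⟩, Prod.ext h4.symm hLw.symm⟩)
      · rw [h4] at h5
        exact Or.inl (Or.inr ⟨w, mem_filter.mpr ⟨hw, h5⟩, Prod.ext h4.symm hLw.symm⟩)
  refine (Set.ncard_le_ncard hsub (Finset.finite_toSet _)).trans ?_
  rw [Set.ncard_coe_finset]
  refine (card_union_le _ _).trans ?_
  refine (Nat.add_le_add (card_union_le _ _) (card_union_le _ _)).trans ?_
  have c1 := card_image_le (s := {w ∈ V | U2 w.1}) (f := f1)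
  have c2 := card_image_le (s := {w ∈ V | U2 w.2}) (f := f2)
  have c3 := card_image_le (s := {w ∈ V | U1 w.1}) (f := f1)
  have c4 := card_image_le (s := {w ∈ V | U1 w.2}) (f := f2)
  omega

end Pool.Agent.TH3.CH
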