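import Pool.Agent.TH3.CH.Final

/-!
# Convex chains of halving lines in every direction
-/

set_option autoImplicit false

namespace Pool.Agent.TH3.CH

open Finset Filter Topology
open Pool.Agent.W296.HL (Line GeneralPosition IsBisector Gen Hv)

/-- `p 0, …, p (m - 1)` is a **convex chain in the direction `(α, β)`**: in the coordinates
`φ (x, y) = α x + β y` and `ψ (x, y) = -β x + α y` the values of `φ` increase strictly along the
sequence and every point of the sequence has a line `ψ = s φ + const` through it with all other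
points of the sequence strictly above -/
def ConvexChain (α β : ℝ) {m : ℕ} (p : Fin m → ℝ × ℝ) : Prop :=
  (∀ i j, i < j → α * (p i).1 + β * (p i).2 < α * (p j).1 + β * (p j).2) ∧
    ∀ i, ∃ s : ℝ, ∀ j, j ≠ i →
      (-β * (p i).1 + α * (p i).2) - s * (α * (p i).1 + β * (p i).2) <
        (-β * (p j).1 + α * (p j).2) - s * (α * (p j).1 + β * (p j).2)

variable {P : Finset (ℝ × ℝ)} {α β : ℝ}

lemma ht_gen (p : ℝ × ℝ) (s : ℝ) : ht (aa α β) (bb α β) p s =
    (-β * p.1 + α * p.2) - s * (α * p.1 + β * p.2) := by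
  unfold ht aa bb; ring

/-- **in every direction a long convex chain of consecutive halving lines** -/
theorem long_dir (hP : GeneralPosition P) (hE : Even #P) {t : ℕ}
    (ht' : t * #P < 2 * {L | IsBisector P L}.ncard) (hab : α ≠ 0 ∨ β ≠ 0)
    (hx : ∀ p ∈ P, ∀ q ∈ P, p ≠ q → α * p.1 + β * p.2 ≠ α * q.1 + β * q.2) :
    ∃ p : Fin (t + 2) → ℝ × ℝ, (∀ i, p i ∈ P) ∧ ConvexChain α β p ∧
      (∀ i, p i ∉ convexHull ℝ (Set.range p \ {p i})) ∧
      ∀ i : Fin (t + 1), ∃ L, IsBisector P L ∧ p i.castSucc ∈ L ∧ p i.succ ∈ L := by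
  classical
  have hG := Pool.Agent.W296.HL.gen_of_gp hP
  have hN : 0 < α ^ 2 + β ^ 2 := by
    rcases hab with h | h
    · have := sq_pos_of_ne_zero h; positivity
    · have := sq_pos_of_ne_zero h; positivity
  have hinj : ∀ p ∈ P, ∀ q ∈ P, p ≠ q → aa α β p ≠ aa α β q := by
    intro p hp q hq hpq h
    unfold aa at h
    exact hx p hp q hq hpq (neg_injective h)
  have hS := simple_of hG hN hinj
  have h1 := ncard_le (P := P) hN hinj
  have h0 : 0 < {L | IsBisector P L}.ncard := by
    rcases Nat.eq_zero_or_pos {L | IsBisector P L}.ncard with h2 | h2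
    · rw [h2] at ht'; omega
    · exact h2
  have h2 := two_mul_k hE h0
  set k := #P / 2 - 1 with hk
  have h3 : (k + 1) * t < #(VV P (aa α β) (bb α β) k) := by
    have : 2 * ((k + 1) * t) = t * #P := by
      rw [← mul_assoc, h2, mul_comm]
    omega
  obtain ⟨z, l, d, c, hd, hl, hc⟩ := long_chain hS h3
  obtain ⟨h4, h5⟩ := hc.lowFam (range (t + 2)) (fun m hm => by
    have := mem_range.mp hm; omega)
  have hsub : (range (t + 2)).image c ⊆ P := by
    intro x hx
    obtain ⟨m, hm, rfl⟩ := mem_image.mp hx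
    exact hc.mem hl (by have := mem_range.mp hm; omega)
  have hrange : Set.range (fun i : Fin (t + 2) => c i) = ((range (t + 2)).image c : Set (ℝ × ℝ)) := by
    ext x
    rw [Set.mem_range, mem_coe, mem_image]
    constructor
    · rintro ⟨i, rfl⟩
      exact ⟨i, mem_range.mpr i.isLt, rfl⟩
    · rintro ⟨m, hm, rfl⟩
      exact ⟨⟨m, mem_range.mp hm⟩, rfl⟩
  refine ⟨fun i => c i, fun i => hc.mem hl (by have := i.isLt; omega), ⟨?_, ?_⟩, ?_, ?_⟩
  · intro i j hij
    have h6 := hc.slope_lt (m := i) (m' := j) hij (by have := j.isLt; omega)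
    unfold aa at h6
    linarith
  · intro i
    obtain ⟨x, hx2⟩ := strictLow hS hsub h4 (i := c i)
      (mem_image_of_mem _ (mem_range.mpr i.isLt))
    refine ⟨x, fun j hj => ?_⟩
    have h6 := hx2 (c j) (mem_image_of_mem _ (mem_range.mpr j.isLt)) (fun he => hj (Fin.ext
      (hc.injOn (by have := j.isLt; omega) (by have := i.isLt; omega) he)))
    rw [ht_gen, ht_gen] at h6
    exact h6
  · intro i
    rw [hrange]
    exact convexPos_of_low hS hsub h4 (c i) (mem_image_of_mem _ (mem_range.mpr i.isLt))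
  · intro i
    have hw := hc.vert i (by have := i.isLt; omega)
    have h4 := mem_VV.mp hw
    exact ⟨lin (c i, c (i + 1)), bisector_of_Hv h4.1 h4.2.1 (Hv_of_mem_VV hG hN hE hinj hw),
      left_mem_lin (c i, c (i + 1)), right_mem_lin (c i, c (i + 1))⟩

end Pool.Agent.TH3.CH
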