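import Pool.Agent.TH3.CH.Points

/-!
# Many halving lines force long convex chains
-/

set_option autoImplicit false

namespace Pool.Agent.TH3.CH

open Finset Filter Topology
open Pool.Agent.W296.HL (Line GeneralPosition IsBisector Gen Hv)

section strict

variable {ι : Type*} {P : Finset ι} {a b : ι → ℝ} {k : ℕ}

lemma UpFam.rot {T : Finset ι} (h : UpFam a b T) : LowFam a (fun i => - b i) T := by
  intro i hi
  obtain ⟨x, hx⟩ := h i hi
  refine ⟨-x, fun j hj => ?_⟩
  have := hx j hj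
  rw [ht_rot, ht_rot, neg_neg, neg_le_neg_iff]
  exact this

lemma strictLow (hS : Simple P a b) {T : Finset ι} (hT : T ⊆ P) (h : LowFam a b T) {i : ι}
    (hi : i ∈ T) : ∃ x, ∀ j ∈ T, j ≠ i → ht a b i x < ht a b j x := by
  classical
  obtain ⟨x, hx⟩ := h i hi
  by_cases hex : ∃ j0 ∈ T, j0 ≠ i ∧ ht a b j0 x = ht a b i x
  · obtain ⟨j0, hj0, hne, he⟩ := hex
    have ha : a i ≠ a j0 := by
      intro ha
      apply hS.ne i (hT hi) j0 (hT hj0) hne.symm ha
      unfold ht at he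
      rw [ha] at he
      linarith
    have hstr : ∀ j ∈ T, j ≠ i → j ≠ j0 → ht a b i x < ht a b j x := by
      intro j hj hji hj2
      refine lt_of_le_of_ne (hx j hj) fun e => ?_
      exact hS.no3 i (hT hi) j0 (hT hj0) j (hT hj) hne.symm hji.symm hj2.symm x he.symm e
    rcases lt_or_gt_of_ne ha with h1 | h1
    · have hev : ∀ᶠ x' in 𝓝[>] x, ∀ j ∈ T, j ≠ i → ht a b i x' < ht a b j x' := by
        rw [Filter.eventually_all_finset]
        intro j hj
        filter_upwards [lt_right (a := a) (b := b) j i x] with x' hx' hji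
        by_cases hj2 : j = j0
        · subst hj2; exact hx'.mpr (Or.inr ⟨he.symm, h1⟩)
        · exact hx'.mpr (Or.inl (hstr j hj hji hj2))
      exact hev.exists
    · have hev : ∀ᶠ x' in 𝓝[<] x, ∀ j ∈ T, j ≠ i → ht a b i x' < ht a b j x' := by
        rw [Filter.eventually_all_finset]
        intro j hj
        filter_upwards [lt_left (a := a) (b := b) j i x] with x' hx' hji
        by_cases hj2 : j = j0
        · subst hj2; exact hx'.mpr (Or.inr ⟨he.symm, h1⟩)
        · exact hx'.mpr (Or.inl (hstr j hj hji hj2))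
      exact hev.exists
  · exact ⟨x, fun j hj hji => lt_of_le_of_ne (hx j hj) fun e => hex ⟨j, hj, hji, e.symm⟩⟩

lemma mid {T : Finset ι} (hL : LowFam a b T)
    (hU : ∀ i ∈ T, ∃ x, ∀ j ∈ T, j ≠ i → ht a b j x < ht a b i x) {i j l : ι}
    (hi : i ∈ T) (hj : j ∈ T) (hl : l ∈ T) (h1 : a i < a j) (h2 : a j < a l) : False := by
  obtain ⟨x, hx⟩ := hL j hj
  obtain ⟨x', hx'⟩ := hU j hj
  have hij : i ≠ j := by rintro rfl; exact lt_irrefl _ h1
  have hlj : l ≠ j := by rintro rfl; exact lt_irrefl _ h2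
  have e1 := hx i hi
  have e2 := hx l hl
  have e3 := hx' i hi hij
  have e4 := hx' l hl hlj
  have f1 := ht_sub (a := a) (b := b) j i x' x
  have f2 := ht_sub (a := a) (b := b) j l x' x
  have g1 : 0 < (a j - a i) * (x' - x) := by linarith
  have g2 : 0 < (a j - a l) * (x' - x) := by linarith
  have g3 : 0 < x' - x := (mul_pos_iff_of_pos_left (sub_pos.mpr h1)).mp g1
  have g4 : (a j - a l) * (x' - x) < 0 := mul_neg_of_neg_of_pos (sub_neg.mpr h2) g3
  linarith

/-- a lower family all of whose lines are somewhere highest has at most two lines -/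
lemma card_le_two {T : Finset ι} (hinj : ∀ i ∈ T, ∀ j ∈ T, i ≠ j → a i ≠ a j)
    (hL : LowFam a b T) (hU : ∀ i ∈ T, ∃ x, ∀ j ∈ T, j ≠ i → ht a b j x < ht a b i x) :
    #T ≤ 2 := by
  by_contra hcon
  push Not at hcon
  obtain ⟨i, j, l, hi, hj, hl, hij, hil, hjl⟩ := two_lt_card_iff.mp hcon
  rcases lt_or_gt_of_ne (hinj i hi j hj hij) with h1 | h1 <;>
  rcases lt_or_gt_of_ne (hinj i hi l hl hil) with h2 | h2 <;>
  rcases lt_or_gt_of_ne (hinj j hj l hl hjl) with h3 | h3
  · exact mid hL hU hi hj hl h1 h3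
  · exact mid hL hU hi hl hj h2 h3
  · linarith
  · exact mid hL hU hl hi hj h2 h1
  · exact mid hL hU hj hi hl h1 h2
  · linarith
  · exact mid hL hU hj hl hi h3 h2
  · exact mid hL hU hl hj hi h3 h1

end strict

/-- **convex position**: no point of `T` is in the convex hull of the other points of `T` -/
def ConvexPosition (T : Finset (ℝ × ℝ)) : Prop :=
  ∀ p ∈ T, p ∉ convexHull ℝ ((T : Set (ℝ × ℝ)) \ {p})

/-- a **cup**: the abscissae increase, and through every point of the sequence there is a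
(non-vertical) line with all other points of the sequence strictly above -/
def IsCup {m : ℕ} (p : Fin m → ℝ × ℝ) : Prop :=
  (∀ i j, i < j → (p i).1 < (p j).1) ∧
    ∀ i, ∃ s : ℝ, ∀ j, j ≠ i → (p i).2 - s * (p i).1 < (p j).2 - s * (p j).1

/-- a **cap**: the abscissae increase, and through every point of the sequence there is a
(non-vertical) line with all other points of the sequence strictly below -/
def IsCap {m : ℕ} (p : Fin m → ℝ × ℝ) : Prop :=
  (∀ i j, i < j → (p i).1 < (p j).1) ∧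
    ∀ i, ∃ s : ℝ, ∀ j, j ≠ i → (p j).2 - s * (p j).1 < (p i).2 - s * (p i).1

variable {P : Finset (ℝ × ℝ)} {α β : ℝ}

lemma ht_lin (x : ℝ) : IsLinearMap ℝ (fun p : ℝ × ℝ => ht (aa α β) (bb α β) p x) := by
  constructor
  · intro p q
    simp only [ht, aa, bb, Prod.fst_add, Prod.snd_add]
    ring
  · intro c p
    simp only [ht, aa, bb, Prod.smul_fst, Prod.smul_snd, smul_eq_mul]
    ring

lemma convexPos_of_low (hS : Simple P (aa α β) (bb α β)) {T : Finset (ℝ × ℝ)} (hT : T ⊆ P)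
    (h : LowFam (aa α β) (bb α β) T) : ConvexPosition T := by
  intro p hp hcon
  obtain ⟨x, hx⟩ := strictLow hS hT h hp
  have h1 : Convex ℝ {q : ℝ × ℝ | ht (aa α β) (bb α β) p x < ht (aa α β) (bb α β) q x} :=
    convex_halfSpace_gt (ht_lin x) _
  have h2 : convexHull ℝ ((T : Set (ℝ × ℝ)) \ {p}) ⊆
      {q : ℝ × ℝ | ht (aa α β) (bb α β) p x < ht (aa α β) (bb α β) q x} :=
    convexHull_min (fun q hq => hx q hq.1 hq.2) h1
  have h3 := h2 hcon
  rw [Set.mem_ofPred_eq] at h3
  exact lt_irrefl _ h3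

lemma exists_generic (P : Finset (ℝ × ℝ)) :
    ∃ β : ℝ, ∀ p ∈ P, ∀ q ∈ P, p ≠ q → aa 1 β p ≠ aa 1 β q := by
  classical
  obtain ⟨β, hβ⟩ := Infinite.exists_notMem_finset
    ((P ×ˢ P).image fun w : (ℝ × ℝ) × (ℝ × ℝ) => -(w.1.1 - w.2.1) / (w.1.2 - w.2.2))
  refine ⟨β, fun p hp q hq hpq h => hβ ?_⟩
  rw [mem_image]
  refine ⟨(p, q), mem_product.mpr ⟨hp, hq⟩, ?_⟩
  unfold aa at h
  simp only
  have h1 : p.2 - q.2 ≠ 0 := by
    intro h2
    apply hpq
    refine Prod.ext ?_ (by linarith)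
    have : p.2 = q.2 := by linarith
    rw [this] at h
    linarith
  rw [div_eq_iff h1]
  linarith

/-- **no long convex polygon, few halving lines** -/
theorem few_of_no_convex (hP : GeneralPosition P) (hE : Even #P) {t : ℕ}
    (h : ∀ Q ⊆ P, ConvexPosition Q → #Q ≤ t + 1) : 2 * {L | IsBisector P L}.ncard ≤ t * #P := by
  classical
  by_contra hcon
  push Not at hcon
  have hG := Pool.Agent.W296.HL.gen_of_gp hP
  obtain ⟨β, hβ⟩ := exists_generic P
  have hN : 0 < (1 : ℝ) ^ 2 + β ^ 2 := by positivity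
  have hS := simple_of hG hN hβ
  have h1 := ncard_le (P := P) hN hβ
  have h0 : 0 < {L | IsBisector P L}.ncard := by
    rcases Nat.eq_zero_or_pos {L | IsBisector P L}.ncard with h2 | h2
    · rw [h2] at hcon; omega
    · exact h2
  have h2 := two_mul_k hE h0
  have h3 : (#P / 2 - 1 + 1) * t < #(VV P (aa 1 β) (bb 1 β) (#P / 2 - 1)) := by
    have : 2 * ((#P / 2 - 1 + 1) * t) = t * #P := by
      rw [← mul_assoc, h2, mul_comm]
    omega
  obtain ⟨z, l, d, c, hd, hl, hc⟩ := long_chain hS h3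
  obtain ⟨h4, h5⟩ := hc.lowFam (range (t + 2)) (fun m hm => by
    have := mem_range.mp hm; omega)
  have hsub : (range (t + 2)).image c ⊆ P := by
    intro x hx
    obtain ⟨m, hm, rfl⟩ := mem_image.mp hx
    exact hc.mem hl (by have := mem_range.mp hm; omega)
  have h6 := h _ hsub (convexPos_of_low hS hsub h4)
  rw [h5, card_range] at h6
  omega

lemma aa_one (p : ℝ × ℝ) : aa 1 0 p = - p.1 := by unfold aa; ring

lemma ht_one (p : ℝ × ℝ) (s : ℝ) : ht (aa 1 0) (bb 1 0) p s = p.2 - s * p.1 := by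
  unfold ht aa bb; ring

/-- **many halving lines: a long cup and a long cap of consecutive halving lines** -/
theorem long_cup_cap (hP : GeneralPosition P) (hE : Even #P)
    (hx : ∀ p ∈ P, ∀ q ∈ P, p ≠ q → p.1 ≠ q.1) {t : ℕ}
    (ht' : t * #P < 2 * {L | IsBisector P L}.ncard) :
    (∃ p : Fin (t + 2) → ℝ × ℝ, (∀ i, p i ∈ P) ∧ IsCup p ∧
      ∀ i : Fin (t + 1), ∃ L, IsBisector P L ∧ p i.castSucc ∈ L ∧ p i.succ ∈ L) ∧
    (∃ p : Fin (t + 2) → ℝ × ℝ, (∀ i, p i ∈ P) ∧ IsCap p ∧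
      ∀ i : Fin (t + 1), ∃ L, IsBisector P L ∧ p i.castSucc ∈ L ∧ p i.succ ∈ L) := by
  classical
  have hG := Pool.Agent.W296.HL.gen_of_gp hP
  have hN : 0 < (1 : ℝ) ^ 2 + (0 : ℝ) ^ 2 := by norm_num
  have hinj : ∀ p ∈ P, ∀ q ∈ P, p ≠ q → aa 1 0 p ≠ aa 1 0 q := by
    intro p hp q hq hpq h
    rw [aa_one, aa_one, neg_inj] at h
    exact hx p hp q hq hpq h
  have hS := simple_of hG hN hinj
  have h1 := ncard_le (P := P) hN hinj
  have h0 : 0 < {L | IsBisector P L}.ncard := by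
    rcases Nat.eq_zero_or_pos {L | IsBisector P L}.ncard with h2 | h2
    · rw [h2] at ht'; omega
    · exact h2
  have h2 := two_mul_k hE h0
  set k := #P / 2 - 1 with hk
  have h3 : (k + 1) * t < #(VV P (aa 1 0) (bb 1 0) k) := by
    have : 2 * ((k + 1) * t) = t * #P := by
      rw [← mul_assoc, h2, mul_comm]
    omega
  have hrot : VV P (aa 1 0) (fun i => - bb 1 0 i) k = VV P (aa 1 0) (bb 1 0) k :=
    VV_rot hS (by omega)
  have hbis : ∀ w ∈ VV P (aa 1 0) (bb 1 0) k, ∃ L, IsBisector P L ∧ w.1 ∈ L ∧ w.2 ∈ L := by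
    intro w hw
    have h4 := mem_VV.mp hw
    exact ⟨lin w, bisector_of_Hv h4.1 h4.2.1 (Hv_of_mem_VV hG hN hE hinj hw),
      left_mem_lin w, right_mem_lin w⟩
  constructor
  · obtain ⟨z, l, d, c, hd, hl, hc⟩ := long_chain hS h3
    obtain ⟨h4, h5⟩ := hc.lowFam (range (t + 2)) (fun m hm => by
      have := mem_range.mp hm; omega)
    have hsub : (range (t + 2)).image c ⊆ P := by
      intro x hx
      obtain ⟨m, hm, rfl⟩ := mem_image.mp hx
      exact hc.mem hl (by have := mem_range.mp hm; omega)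
    refine ⟨fun i => c i, fun i => hc.mem hl (by have := i.isLt; omega), ⟨?_, ?_⟩, ?_⟩
    · intro i j hij
      have h6 := hc.slope_lt (m := i) (m' := j) hij (by have := j.isLt; omega)
      rw [aa_one, aa_one] at h6
      linarith
    · intro i
      obtain ⟨x, hx2⟩ := strictLow hS hsub h4 (i := c i)
        (mem_image_of_mem _ (mem_range.mpr i.isLt))
      refine ⟨x, fun j hj => ?_⟩
      have h6 := hx2 (c j) (mem_image_of_mem _ (mem_range.mpr j.isLt)) (fun he => hj (Fin.ext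
        (hc.injOn (by have := j.isLt; omega) (by have := i.isLt; omega) he)))
      rw [ht_one, ht_one] at h6
      exact h6
    · intro i
      exact hbis _ (hc.vert i (by have := i.isLt; omega))
  · obtain ⟨z, l, d, c, hd, hl, hc⟩ := long_chain (hS.rot) (k := k) (t := t) (by rw [hrot]; exact h3)
    obtain ⟨h4, h5⟩ := hc.lowFam (range (t + 2)) (fun m hm => by
      have := mem_range.mp hm; omega)
    have hsub : (range (t + 2)).image c ⊆ P := by
      intro x hx
      obtain ⟨m, hm, rfl⟩ := mem_image.mp hx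
      exact hc.mem hl (by have := mem_range.mp hm; omega)
    refine ⟨fun i => c i, fun i => hc.mem hl (by have := i.isLt; omega), ⟨?_, ?_⟩, ?_⟩
    · intro i j hij
      have h6 := hc.slope_lt (m := i) (m' := j) hij (by have := j.isLt; omega)
      rw [aa_one, aa_one] at h6
      linarith
    · intro i
      obtain ⟨x, hx2⟩ := strictLow hS.rot hsub h4 (i := c i)
        (mem_image_of_mem _ (mem_range.mpr i.isLt))
      refine ⟨-x, fun j hj => ?_⟩
      have h6 := hx2 (c j) (mem_image_of_mem _ (mem_range.mpr j.isLt)) (fun he => hj (Fin.ext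
        (hc.injOn (by have := j.isLt; omega) (by have := i.isLt; omega) he)))
      rw [ht_rot, ht_rot, neg_lt_neg_iff, ht_one, ht_one] at h6
      exact h6
    · intro i
      have h7 := hc.vert i (by have := i.isLt; omega)
      rw [hrot] at h7
      exact hbis _ h7

/-- a set of points which are all on the lower boundary of their convex hull -/
def CupSet (T : Finset (ℝ × ℝ)) : Prop :=
  ∀ p ∈ T, ∃ s : ℝ, ∀ q ∈ T, q ≠ p → p.2 - s * p.1 < q.2 - s * q.1

/-- a set of points which are all on the upper boundary of their convex hull -/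
def CapSet (T : Finset (ℝ × ℝ)) : Prop :=
  ∀ p ∈ T, ∃ s : ℝ, ∀ q ∈ T, q ≠ p → q.2 - s * q.1 < p.2 - s * p.1

open scoped Classical in
/-- **partition version** -/
theorem cup_or_cap (hP : GeneralPosition P) (hE : Even #P)
    (hx : ∀ p ∈ P, ∀ q ∈ P, p ≠ q → p.1 ≠ q.1) {B C : Finset (ℝ × ℝ)} (hBC : P ⊆ B ∪ C)
    {s t : ℕ} (hst : (s + t) * #P < 2 * {L | IsBisector P L}.ncard) :
    (∃ T ⊆ B, T ⊆ P ∧ s + 1 ≤ #T ∧ CupSet T) ∨ (∃ T ⊆ C, T ⊆ P ∧ t + 1 ≤ #T ∧ CapSet T) := by
  have hG := Pool.Agent.W296.HL.gen_of_gp hP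
  have hN : 0 < (1 : ℝ) ^ 2 + (0 : ℝ) ^ 2 := by norm_num
  have hinj : ∀ p ∈ P, ∀ q ∈ P, p ≠ q → aa 1 0 p ≠ aa 1 0 q := by
    intro p hp q hq hpq h
    rw [aa_one, aa_one, neg_inj] at h
    exact hx p hp q hq hpq h
  have hS := simple_of hG hN hinj
  have h1 := ncard_le (P := P) hN hinj
  have h0 : 0 < {L | IsBisector P L}.ncard := by
    rcases Nat.eq_zero_or_pos {L | IsBisector P L}.ncard with h2 | h2
    · rw [h2] at hst; omega
    · exact h2
  have h2 := two_mul_k hE h0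
  set k := #P / 2 - 1 with hk
  have hrot : VV P (aa 1 0) (fun i => - bb 1 0 i) k = VV P (aa 1 0) (bb 1 0) k :=
    VV_rot hS (by omega)
  have h3 : #(VV P (aa 1 0) (bb 1 0) k) ≤ #{w ∈ VV P (aa 1 0) (bb 1 0) k | w.1 ∈ B} +
      #{w ∈ VV P (aa 1 0) (bb 1 0) k | w.1 ∈ C} := by
    refine (card_le_card ?_).trans (card_union_le _ _)
    intro w hw
    rw [mem_union, mem_filter, mem_filter]
    rcases mem_union.mp (hBC (mem_VV.mp hw).1) with h4 | h4
    · exact Or.inl ⟨hw, h4⟩
    · exact Or.inr ⟨hw, h4⟩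
  have h4 : (k + 1) * s < #{w ∈ VV P (aa 1 0) (bb 1 0) k | w.1 ∈ B} ∨
      (k + 1) * t < #{w ∈ VV P (aa 1 0) (bb 1 0) k | w.1 ∈ C} := by
    by_contra hcon
    push Not at hcon
    have h5 : (s + t) * #P = 2 * ((k + 1) * s + (k + 1) * t) := by rw [← h2]; ring
    omega
  rcases h4 with h4 | h4
  · left
    obtain ⟨T, hTP, hTB, hT, hlow⟩ := long_first hS (fun w => w ∈ B) h4
    refine ⟨T, hTB, hTP, hT, fun p hp => ?_⟩
    obtain ⟨x, hx2⟩ := strictLow hS hTP hlow hp
    refine ⟨x, fun q hq hqp => ?_⟩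
    have h6 := hx2 q hq hqp
    rw [ht_one, ht_one] at h6
    exact h6
  · right
    obtain ⟨T, hTP, hTB, hT, hlow⟩ := long_first hS.rot (k := k) (fun w => w ∈ C)
      (by rw [hrot]; exact h4)
    refine ⟨T, hTB, hTP, hT, fun p hp => ?_⟩
    obtain ⟨x, hx2⟩ := strictLow hS.rot hTP hlow hp
    refine ⟨-x, fun q hq hqp => ?_⟩
    have h6 := hx2 q hq hqp
    rw [ht_rot, ht_rot, neg_lt_neg_iff, ht_one, ht_one] at h6
    exact h6

end Pool.Agent.TH3.CH
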