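import Pool.Agent.TH3.CH.Final
import Pool.Agent.Results.MP_a08d0a_co.SmoothedLevel

/-!
# Levels of line arrangements and envelopes
-/

set_option autoImplicit false

namespace Pool.Agent.TH3.CH.Lvl

open Finset Filter Topology Pool.Agent.TH3.CH
open Pool.Agent.Results.MP_a08d0a_co.SmoothedLevel (crossings level psi psi_le)

variable {n : ℕ} {a B : Fin n → ℝ}

/-- every line of `T` is, over some abscissa, strictly lower than all other lines of `T` -/
def OnLowerEnvelope (a B : Fin n → ℝ) (T : Finset (Fin n)) : Prop :=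
  ∀ i ∈ T, ∃ x : ℝ, ∀ j ∈ T, j ≠ i → a i * x + B i < a j * x + B j

/-- every line of `T` is, over some abscissa, strictly higher than all other lines of `T` -/
def OnUpperEnvelope (a B : Fin n → ℝ) (T : Finset (Fin n)) : Prop :=
  ∀ i ∈ T, ∃ x : ℝ, ∀ j ∈ T, j ≠ i → a j * x + B j < a i * x + B i

lemma simple' (hS : Pool.Agent.Results.MP_a08d0a_co.SmoothedLevel.Simple a B) :
    Simple (univ : Finset (Fin n)) a B := by
  refine ⟨fun i _ j _ hij h => hS.1 i j hij h, ?_⟩
  intro i _ j _ l _ hij hil hjl x h1 h2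
  exact hS.2 i j l hij hil hjl ⟨x, h1, h2⟩

lemma lev_eq (i : Fin n) (x : ℝ) : lev univ a B i x =
    {l | Pool.Agent.H189R2.Lev.ht a B l x < Pool.Agent.H189R2.Lev.ht a B i x}.ncard := by
  classical
  have e : {l | Pool.Agent.H189R2.Lev.ht a B l x < Pool.Agent.H189R2.Lev.ht a B i x} =
      (({l ∈ univ | ht a B l x < ht a B i x} : Finset (Fin n)) : Set (Fin n)) := by
    ext l; simp [ht, Pool.Agent.H189R2.Lev.ht]
  rw [e, Set.ncard_coe_finset]
  rfl

/-- the crossings of the level against the ordered crossings -/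
lemma crossings_le (a B : Fin n → ℝ) (k : ℕ) :
    (crossings a B k).ncard ≤ #(VV (univ : Finset (Fin n)) a B k) := by
  classical
  rw [← Set.ncard_coe_finset]
  refine Set.ncard_le_ncard_of_injOn (fun q => if a q.2 < a q.1 then q else q.swap) ?_ ?_
    (Finset.finite_toSet _)
  · rintro ⟨i, j⟩ ⟨h1, h2, h3⟩
    simp only at h1 h2 h3
    rw [mem_coe, mem_VV]
    by_cases h : a j < a i
    · simp only [h, if_true]
      refine ⟨mem_univ _, mem_univ _, trivial, ?_⟩
      rw [lev_eq]
      exact h3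
    · have h4 : a i < a j := lt_of_le_of_ne (not_lt.mp h) h2
      simp only [h, if_false, Prod.fst_swap, Prod.snd_swap]
      refine ⟨mem_univ _, mem_univ _, h4, ?_⟩
      rw [xc_comm, ← lev_congr (ht_xc h2), lev_eq]
      exact h3
  · rintro ⟨i, j⟩ ⟨h1, h2, h3⟩ ⟨i', j'⟩ ⟨h1', h2', h3'⟩ heq
    simp only at h1 h1' heq
    split_ifs at heq with h h' h'
    · exact heq
    · rw [Prod.swap_prod_mk, Prod.mk.injEq] at heq
      rw [heq.1, heq.2] at h1
      exact absurd h1' (lt_asymm h1)
    · rw [Prod.swap_prod_mk, Prod.mk.injEq] at heq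
      rw [heq.1, heq.2] at h1
      exact absurd h1' (lt_asymm h1)
    · rw [Prod.swap_prod_mk, Prod.swap_prod_mk, Prod.mk.injEq] at heq
      rw [heq.1, heq.2]

/-- at most `n - 2` lines are below a crossing -/
lemma VV_empty (hS : Simple (univ : Finset (Fin n)) a B) {k : ℕ} (hk : ¬ k + 2 ≤ n) :
    VV (univ : Finset (Fin n)) a B k = ∅ := by
  apply eq_empty_of_forall_notMem
  intro w hw
  obtain ⟨h1, h2, h3, h4⟩ := mem_VV.mp hw
  have hne : w.1 ≠ w.2 := by intro h; rw [h] at h3; exact lt_irrefl _ h3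
  have h5 := card3 hS h1 h2 hne (ht_xc (b := B) h3.ne')
  rw [card_univ, Fintype.card_fin] at h5
  omega

open scoped Classical in
/-- the two sides, at one level -/
lemma one_level (hS : Simple (univ : Finset (Fin n)) a B) (k : ℕ) {U V : Finset (Fin n)}
    (hUV : U ∪ V = univ) {s t : ℕ}
    (hU : ∀ T ⊆ U, LowFam a B T → #T ≤ s) (hV : ∀ T ⊆ V, LowFam a (fun i => - B i) T → #T ≤ t) :
    #(VV (univ : Finset (Fin n)) a B k) ≤ (k + 1) * s + (n - 1 - k) * t := by
  by_cases hk : k + 2 ≤ n
  · have h3 : #(VV univ a B k) ≤ #{w ∈ VV univ a B k | w.1 ∈ U} +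
        #{w ∈ VV univ a B k | w.1 ∈ V} := by
      refine (card_le_card ?_).trans (card_union_le _ _)
      intro w hw
      rw [mem_union, mem_filter, mem_filter]
      have : w.1 ∈ U ∪ V := by rw [hUV]; exact mem_univ _
      rcases mem_union.mp this with h4 | h4
      · exact Or.inl ⟨hw, h4⟩
      · exact Or.inr ⟨hw, h4⟩
    have h4 : #{w ∈ VV univ a B k | w.1 ∈ U} ≤ (k + 1) * s := by
      by_contra hcon
      push Not at hcon
      obtain ⟨T, h5, h6, h7, h8⟩ := long_first hS (fun w => w ∈ U) hcon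
      have := hU T h6 h8
      omega
    have h5 : #{w ∈ VV univ a B k | w.1 ∈ V} ≤ (n - 1 - k) * t := by
      by_contra hcon
      push Not at hcon
      have hrot : VV univ a (fun i => - B i) (n - 2 - k) = VV univ a B k :=
        VV_rot hS (by rw [card_univ, Fintype.card_fin]; omega)
      have e : n - 2 - k + 1 = n - 1 - k := by omega
      obtain ⟨T, h5, h6, h7, h8⟩ := long_first hS.rot (k := n - 2 - k) (fun w => w ∈ V)
        (t := t) (by rw [hrot, e]; exact hcon)
      have := hV T h6 h8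
      omega
    omega
  · rw [VV_empty hS hk, card_empty]
    exact Nat.zero_le _

/-- **a complex level forces a large envelope** -/
theorem envelopes (hS : Pool.Agent.Results.MP_a08d0a_co.SmoothedLevel.Simple a B) {k : ℕ}
    (hk : k < n) {U V : Finset (Fin n)} (hUV : U ∪ V = univ) {s t : ℕ}
    (h : (((2 * k + 1) * s + (2 * (n - k) - 1) * t : ℕ) : ℕ∞) < psi a B k) :
    (∃ T ⊆ U, s + 1 ≤ #T ∧ OnLowerEnvelope a B T) ∨
      (∃ T ⊆ V, t + 1 ≤ #T ∧ OnUpperEnvelope a B T) := by
  classical
  by_contra hcon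
  push Not at hcon
  have hS' := simple' hS
  have hU : ∀ T ⊆ U, LowFam a B T → #T ≤ s := by
    intro T hT hlow
    by_contra h2
    apply hcon.1 T hT (by omega)
    intro i hi
    obtain ⟨x, hx⟩ := strictLow hS' (subset_univ T) hlow hi
    exact ⟨x, hx⟩
  have hV : ∀ T ⊆ V, LowFam a (fun i => - B i) T → #T ≤ t := by
    intro T hT hlow
    by_contra h2
    apply hcon.2 T hT (by omega)
    intro i hi
    obtain ⟨x, hx⟩ := strictLow hS'.rot (subset_univ T) hlow hi
    refine ⟨-x, fun j hj hji => ?_⟩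
    have h3 := hx j hj hji
    rw [ht_rot, ht_rot, neg_lt_neg_iff] at h3
    exact h3
  have h1 := psi_le hS hk
  have h2 := lt_of_lt_of_le h h1
  rw [Nat.cast_lt] at h2
  have h3 := (crossings_le a B k).trans (one_level hS' k hUV hU hV)
  by_cases h0 : k = 0
  · subst h0
    simp only [if_true] at h2
    have e1 : (2 * (n - 0) - 1) * t = (n - 1 - 0) * t + n * t := by
      rw [← add_mul]; congr 1; omega
    have e2 : (2 * 0 + 1) * s = (0 + 1) * s := by ring
    rw [e1, e2] at h2
    have : 0 ≤ n * t := Nat.zero_le _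
    omega
  · rw [if_neg h0] at h2
    have h4 := (crossings_le a B (k - 1)).trans (one_level hS' (k - 1) hUV hU hV)
    have e1 : k - 1 + 1 = k := by omega
    have e2 : n - 1 - (k - 1) = n - k := by omega
    rw [e1, e2] at h4
    have e3 : (2 * k + 1) * s = (k + 1) * s + k * s := by ring
    have e4 : (2 * (n - k) - 1) * t = (n - 1 - k) * t + (n - k) * t := by
      rw [← add_mul]; congr 1; omega
    rw [e3, e4] at h2
    omega

end Pool.Agent.TH3.CH.Lvl
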