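import Mathlib

/-!
# Lines in the plane: how the number of lines below a line changes

`ht a b i x = a i * x + b i` is the height of the line `i` over `x`; `lev P a b i x` is the
number of lines of `P` strictly below the line `i` over `x`.
-/

set_option autoImplicit false

namespace Pool.Agent.TH3.CH

open Finset Filter Topology

variable {ι : Type*}

/-- the height of the line `i` over `x` -/
def ht (a b : ι → ℝ) (i : ι) (x : ℝ) : ℝ := a i * x + b i

/-- the number of lines of `P` strictly below the line `i` over `x` -/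
noncomputable def lev (P : Finset ι) (a b : ι → ℝ) (i : ι) (x : ℝ) : ℕ :=
  #{l ∈ P | ht a b l x < ht a b i x}

/-- the abscissa of the crossing of the lines `i` and `j` -/
noncomputable def xc (a b : ι → ℝ) (i j : ι) : ℝ := (b j - b i) / (a i - a j)

/-- no two lines coincide, no three lines pass through a common point -/
structure Simple (P : Finset ι) (a b : ι → ℝ) : Prop where
  ne : ∀ i ∈ P, ∀ j ∈ P, i ≠ j → a i = a j → b i ≠ b j
  no3 : ∀ i ∈ P, ∀ j ∈ P, ∀ l ∈ P, i ≠ j → i ≠ l → j ≠ l → ∀ x,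
    ht a b i x = ht a b j x → ht a b i x ≠ ht a b l x

variable {P : Finset ι} {a b : ι → ℝ}

lemma ht_sub (i j : ι) (x x0 : ℝ) :
    ht a b i x - ht a b j x = (a i - a j) * (x - x0) + (ht a b i x0 - ht a b j x0) := by
  unfold ht; ring

lemma ht_cont (i : ι) : Continuous (ht a b i) := by
  unfold ht; fun_prop

lemma xc_eq {i j : ι} {x : ℝ} (h : a i ≠ a j) : xc a b i j = x ↔ ht a b i x = ht a b j x := by
  have h' : a i - a j ≠ 0 := sub_ne_zero.mpr h
  unfold xc ht
  rw [div_eq_iff h']
  constructor <;> intro h <;> linarith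

lemma ht_xc {i j : ι} (h : a i ≠ a j) :
    ht a b i (xc a b i j) = ht a b j (xc a b i j) := (xc_eq h).mp rfl

lemma xc_comm (i j : ι) : xc a b i j = xc a b j i := by
  unfold xc
  rw [← neg_sub (b i) (b j), ← neg_sub (a j) (a i), neg_div_neg_eq]

lemma lt_right (i j : ι) (x0 : ℝ) : ∀ᶠ x in 𝓝[>] x0, (ht a b j x < ht a b i x ↔
    (ht a b j x0 < ht a b i x0 ∨ (ht a b j x0 = ht a b i x0 ∧ a j < a i))) := by
  rcases lt_trichotomy (ht a b j x0) (ht a b i x0) with h | h | h
  · have : ∀ᶠ x in 𝓝[>] x0, ht a b j x < ht a b i x :=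
      nhdsWithin_le_nhds (((ht_cont j).continuousAt.eventually_lt (ht_cont i).continuousAt) h)
    filter_upwards [this] with x hx
    simp [hx, h]
  · filter_upwards [self_mem_nhdsWithin] with x hx
    have h1 := ht_sub (a := a) (b := b) i j x x0
    rw [h, sub_self, add_zero] at h1
    have h2 : 0 < x - x0 := sub_pos.mpr hx
    constructor
    · intro h3
      right
      refine ⟨h, ?_⟩
      have h4 : 0 < (a i - a j) * (x - x0) := by rw [← h1]; linarith
      have := (mul_pos_iff_of_pos_right h2).mp h4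
      linarith
    · rintro (h3 | ⟨-, h3⟩)
      · exact absurd h h3.ne
      · have := mul_pos (sub_pos.mpr h3) h2
        linarith
  · have : ∀ᶠ x in 𝓝[>] x0, ht a b i x < ht a b j x :=
      nhdsWithin_le_nhds (((ht_cont i).continuousAt.eventually_lt (ht_cont j).continuousAt) h)
    filter_upwards [this] with x hx
    constructor
    · intro h3; linarith
    · rintro (h3 | ⟨h3, -⟩) <;> linarith

lemma lt_left (i j : ι) (x0 : ℝ) : ∀ᶠ x in 𝓝[<] x0, (ht a b j x < ht a b i x ↔
    (ht a b j x0 < ht a b i x0 ∨ (ht a b j x0 = ht a b i x0 ∧ a i < a j))) := by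
  rcases lt_trichotomy (ht a b j x0) (ht a b i x0) with h | h | h
  · have : ∀ᶠ x in 𝓝[<] x0, ht a b j x < ht a b i x :=
      nhdsWithin_le_nhds (((ht_cont j).continuousAt.eventually_lt (ht_cont i).continuousAt) h)
    filter_upwards [this] with x hx
    simp [hx, h]
  · filter_upwards [self_mem_nhdsWithin] with x hx
    have h1 := ht_sub (a := a) (b := b) i j x x0
    rw [h, sub_self, add_zero] at h1
    have h2 : x - x0 < 0 := sub_neg.mpr hx
    constructor
    · intro h3
      right
      refine ⟨h, ?_⟩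
      by_contra h4
      have := mul_nonpos_of_nonneg_of_nonpos (sub_nonneg.mpr (not_lt.mp h4)) h2.le
      linarith
    · rintro (h3 | ⟨-, h3⟩)
      · exact absurd h h3.ne
      · have := mul_pos_of_neg_of_neg (sub_neg.mpr h3) h2
        linarith
  · have : ∀ᶠ x in 𝓝[<] x0, ht a b i x < ht a b j x :=
      nhdsWithin_le_nhds (((ht_cont i).continuousAt.eventually_lt (ht_cont j).continuousAt) h)
    filter_upwards [this] with x hx
    constructor
    · intro h3; linarith
    · rintro (h3 | ⟨h3, -⟩) <;> linarith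

lemma card_split (i : ι) (x0 : ℝ) (q : ι → Prop) [DecidablePred q] :
    #{l ∈ P | ht a b l x0 < ht a b i x0 ∨ (ht a b l x0 = ht a b i x0 ∧ q l)} =
      lev P a b i x0 + #{l ∈ P | ht a b l x0 = ht a b i x0 ∧ q l} := by
  classical
  unfold lev
  rw [← card_union_of_disjoint, filter_or]
  rw [disjoint_left]
  intro l h1 h2
  rw [mem_filter] at h1 h2
  exact h1.2.ne h2.2.1

open scoped Classical in
lemma lev_right (P : Finset ι) (a b : ι → ℝ) (i : ι) (x0 : ℝ) : ∀ᶠ x in 𝓝[>] x0,
    lev P a b i x = lev P a b i x0 + #{l ∈ P | ht a b l x0 = ht a b i x0 ∧ a l < a i} := by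
  have h : ∀ᶠ x in 𝓝[>] x0, ∀ l ∈ P, (ht a b l x < ht a b i x ↔
      (ht a b l x0 < ht a b i x0 ∨ (ht a b l x0 = ht a b i x0 ∧ a l < a i))) := by
    rw [Filter.eventually_all_finset]
    exact fun l _ => lt_right i l x0
  filter_upwards [h] with x hx
  rw [← card_split]
  unfold lev
  exact congrArg card (filter_congr hx)

open scoped Classical in
lemma lev_left (P : Finset ι) (a b : ι → ℝ) (i : ι) (x0 : ℝ) : ∀ᶠ x in 𝓝[<] x0,
    lev P a b i x = lev P a b i x0 + #{l ∈ P | ht a b l x0 = ht a b i x0 ∧ a i < a l} := by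
  have h : ∀ᶠ x in 𝓝[<] x0, ∀ l ∈ P, (ht a b l x < ht a b i x ↔
      (ht a b l x0 < ht a b i x0 ∨ (ht a b l x0 = ht a b i x0 ∧ a i < a l))) := by
    rw [Filter.eventually_all_finset]
    exact fun l _ => lt_left i l x0
  filter_upwards [h] with x hx
  rw [← card_split]
  unfold lev
  exact congrArg card (filter_congr hx)

open scoped Classical in
/-- at most one line crosses `i` over `x` -/
lemma card_le_one' (hS : Simple P a b) {i : ι} (hi : i ∈ P) (x0 : ℝ) (q : ι → Prop)
    (hq : ∀ l, q l → l ≠ i) : #{l ∈ P | ht a b l x0 = ht a b i x0 ∧ q l} ≤ 1 := by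
  rw [card_le_one]
  intro j hj l hl
  rw [mem_filter] at hj hl
  by_contra hjl
  exact hS.no3 i hi j hj.1 l hl.1 (hq j hj.2.2).symm (hq l hl.2.2).symm hjl x0 hj.2.1.symm
    hl.2.1.symm

lemma lev_congr {i j : ι} {x : ℝ} (h : ht a b i x = ht a b j x) :
    lev P a b i x = lev P a b j x := by
  unfold lev; rw [h]

/-- (E1) a line which leaves the `(≤ k)`-region does so at a crossing with a line of smaller slope,
with exactly `k` lines below -/
lemma exit_exists (hS : Simple P a b) {k : ℕ} {i : ι} (hi : i ∈ P) {z1 z2 : ℝ} (hz : z1 < z2)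
    (h1 : lev P a b i z1 ≤ k) (h2 : k < lev P a b i z2) :
    ∃ j ∈ P, a j < a i ∧ z1 ≤ xc a b i j ∧ xc a b i j < z2 ∧ lev P a b i (xc a b i j) = k := by
  classical
  set S : Set ℝ := {x | x ∈ Set.Icc z1 z2 ∧ lev P a b i x ≤ k} with hSd
  have hne : S.Nonempty := ⟨z1, ⟨le_rfl, hz.le⟩, h1⟩
  have hbd : BddAbove S := ⟨z2, fun x hx => hx.1.2⟩
  set x0 := sSup S with hx0
  have hx1 : z1 ≤ x0 := le_csSup hbd ⟨⟨le_rfl, hz.le⟩, h1⟩
  have hx2 : x0 ≤ z2 := csSup_le hne fun x hx => hx.1.2
  -- `x0 ∈ S`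
  have hmem : lev P a b i x0 ≤ k := by
    by_contra hcon
    push Not at hcon
    obtain ⟨u, hu, hu2⟩ := (mem_nhdsLT_iff_exists_Ioo_subset
      (a := x0)).mp (lev_left P a b i x0)
    obtain ⟨x, hxS, hux⟩ := exists_lt_of_lt_csSup hne hu
    have hxle : x ≤ x0 := le_csSup hbd hxS
    rcases hxle.lt_or_eq with h | h
    · have := hu2 ⟨hux, h⟩
      simp only [Set.mem_ofPred_eq] at this
      have h3 := hxS.2
      omega
    · rw [h] at hxS
      exact absurd hxS.2 (not_le.mpr hcon)
  have hlt : x0 < z2 := by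
    rcases hx2.lt_or_eq with h | h
    · exact h
    · rw [h] at hmem; omega
  obtain ⟨u, hu, hu2⟩ := (mem_nhdsGT_iff_exists_Ioo_subset
      (a := x0)).mp (lev_right P a b i x0)
  obtain ⟨x, hx⟩ := exists_between (lt_min hu hlt)
  have hxu : x < u := lt_of_lt_of_le hx.2 (min_le_left _ _)
  have hxz : x < z2 := lt_of_lt_of_le hx.2 (min_le_right _ _)
  have hnot : k < lev P a b i x := by
    by_contra hcon
    push Not at hcon
    have : x ≤ x0 := le_csSup hbd ⟨⟨hx1.trans hx.1.le, hxz.le⟩, hcon⟩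
    exact absurd hx.1 (not_lt.mpr this)
  have hev := hu2 ⟨hx.1, hxu⟩
  simp only [Set.mem_ofPred_eq] at hev
  have h3 := card_le_one' hS hi x0 (fun l => a l < a i) (fun l hl => by rintro rfl; exact absurd hl (lt_irrefl _))
  have h4 : 0 < #{l ∈ P | ht a b l x0 = ht a b i x0 ∧ a l < a i} := by omega
  obtain ⟨j, hj⟩ := card_pos.mp h4
  rw [mem_filter] at hj
  have hxe : xc a b i j = x0 := (xc_eq hj.2.2.ne').mpr hj.2.1.symm
  refine ⟨j, hj.1, hj.2.2, ?_, ?_, ?_⟩
  · rw [hxe]; exact hx1
  · rw [hxe]; exact hlt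
  · rw [hxe]; omega

/-- (E2) a line which enters the `(≤ k)`-region does so at a crossing with a line of larger slope,
with exactly `k` lines below -/
lemma enter_exists (hS : Simple P a b) {k : ℕ} {i : ι} (hi : i ∈ P) {z1 z2 : ℝ} (hz : z1 < z2)
    (h1 : k < lev P a b i z1) (h2 : lev P a b i z2 ≤ k) :
    ∃ j ∈ P, a i < a j ∧ z1 < xc a b j i ∧ xc a b j i ≤ z2 ∧ lev P a b j (xc a b j i) = k := by
  have hr : ∀ l x, ht (fun i => - a i) b l x = ht a b l (-x) := by
    intro l x; unfold ht; ring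
  have hl : ∀ l x, lev P (fun i => - a i) b l x = lev P a b l (-x) := by
    intro l x; unfold lev; simp only [hr]
  have hS' : Simple P (fun i => - a i) b := by
    refine ⟨fun i hi j hj hij h => hS.ne i hi j hj hij (neg_injective h), ?_⟩
    intro i hi j hj l hl hij hil hjl x h
    rw [hr, hr] at h ⊢
    exact hS.no3 i hi j hj l hl hij hil hjl _ h
  obtain ⟨j, hj, h3, h4, h5, h6⟩ := exit_exists hS' (k := k) hi (z1 := -z2) (z2 := -z1)
    (neg_lt_neg hz) (by rw [hl, neg_neg]; exact h2) (by rw [hl, neg_neg]; exact h1)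
  have h7 : a i < a j := by simpa using h3
  have hx : xc (fun i => - a i) b i j = - xc a b j i := by
    unfold xc
    rw [show (-a i - -a j : ℝ) = a j - a i by ring, ← neg_sub (b i) (b j), neg_div]
  rw [hx] at h4 h5 h6
  refine ⟨j, hj, h7, by linarith, by linarith, ?_⟩
  rw [hl, neg_neg] at h6
  rw [← h6]
  exact lev_congr (ht_xc h7.ne')

end Pool.Agent.TH3.CH
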