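import Pool.Agent.TH3.CH.Chain
import Pool.Agent.W296.HL3

/-!
# Point sets: bisectors and crossings, convex position
-/

set_option autoImplicit false

namespace Pool.Agent.TH3.CH

open Finset Filter Topology
open Pool.Agent.W296.HL (Line GeneralPosition IsBisector Gen Hv)

/-- the slope of the line dual to `p` -/
def aa (α β : ℝ) (p : ℝ × ℝ) : ℝ := -(α * p.1 + β * p.2)

/-- the height over `0` of the line dual to `p` -/
def bb (α β : ℝ) (p : ℝ × ℝ) : ℝ := -β * p.1 + α * p.2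

variable {P : Finset (ℝ × ℝ)} {α β : ℝ}

/-- the cross product in terms of heights -/
lemma cr_ht (α β : ℝ) (p q x : ℝ × ℝ) {s : ℝ}
    (h : ht (aa α β) (bb α β) p s = ht (aa α β) (bb α β) q s) :
    (α ^ 2 + β ^ 2) * Pool.Agent.W296.HL.cr p q x =
      (aa α β p - aa α β q) * (ht (aa α β) (bb α β) x s - ht (aa α β) (bb α β) p s) := by
  unfold Pool.Agent.W296.HL.cr
  unfold ht aa bb at *
  linear_combination (α * (x.1 - p.1) + β * (x.2 - p.2)) * h

lemma cr_pos_iff' (hN : 0 < α ^ 2 + β ^ 2) {p q : ℝ × ℝ} (x : ℝ × ℝ) {s : ℝ}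
    (h : ht (aa α β) (bb α β) p s = ht (aa α β) (bb α β) q s) (ha : aa α β q < aa α β p) :
    (0 < Pool.Agent.W296.HL.cr p q x ↔ ht (aa α β) (bb α β) p s < ht (aa α β) (bb α β) x s) ∧
    (Pool.Agent.W296.HL.cr p q x < 0 ↔ ht (aa α β) (bb α β) x s < ht (aa α β) (bb α β) p s) := by
  have h1 := cr_ht α β p q x h
  have h2 : 0 < aa α β p - aa α β q := sub_pos.mpr ha
  constructor
  · rw [← mul_pos_iff_of_pos_left hN, h1, mul_pos_iff_of_pos_left h2, sub_pos]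
  · rw [← neg_pos, ← mul_pos_iff_of_pos_left hN, mul_neg, h1, ← mul_neg,
      mul_pos_iff_of_pos_left h2, neg_sub, sub_pos]

/-- the dual lines of a set in general position -/
lemma simple_of (hP : Gen P) (hN : 0 < α ^ 2 + β ^ 2)
    (hinj : ∀ p ∈ P, ∀ q ∈ P, p ≠ q → aa α β p ≠ aa α β q) : Simple P (aa α β) (bb α β) := by
  refine ⟨fun i hi j hj hij h => absurd h (hinj i hi j hj hij), ?_⟩
  intro i hi j hj l hl hij hil hjl x h1 h2
  apply hP i hi j hj l hl hij hil hjl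
  have h3 := cr_ht α β i j l h1
  rw [h2, sub_self, mul_zero] at h3
  exact (mul_eq_zero.mp h3).resolve_left hN.ne'

open scoped Classical in
lemma mem_VV_of_Hv (hN : 0 < α ^ 2 + β ^ 2) {p q : ℝ × ℝ} (hp : p ∈ P) (hq : q ∈ P)
    (ha : aa α β q < aa α β p) (h : Hv P p q) :
    (p, q) ∈ VV P (aa α β) (bb α β) (#P / 2 - 1) := by
  rw [mem_VV]
  refine ⟨hp, hq, ha, ?_⟩
  have h1 := ht_xc (b := bb α β) ha.ne'
  rw [← h.2.2]
  unfold lev
  congr 1
  ext x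
  simp only [mem_filter, (cr_pos_iff' hN x h1 ha).2]

lemma Hv_of_mem_VV (hP : Gen P) (hN : 0 < α ^ 2 + β ^ 2) (hE : Even #P)
    (hinj : ∀ p ∈ P, ∀ q ∈ P, p ≠ q → aa α β p ≠ aa α β q) {w : (ℝ × ℝ) × (ℝ × ℝ)}
    (hw : w ∈ VV P (aa α β) (bb α β) (#P / 2 - 1)) : Hv P w.1 w.2 := by
  classical
  obtain ⟨hp, hq, ha, hk⟩ := mem_VV.mp hw
  have hne : w.1 ≠ w.2 := by intro h; rw [h] at ha; exact lt_irrefl _ ha
  have h1 := ht_xc (b := bb α β) ha.ne'
  have h3 := card3 (simple_of hP hN hinj) hp hq hne h1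
  obtain ⟨m, hm⟩ := hE
  refine ⟨hne, ?_, ?_⟩
  · have : #{x ∈ P | 0 < Pool.Agent.W296.HL.cr w.1 w.2 x} =
        #{l ∈ P | ht (aa α β) (bb α β) w.1 (xc (aa α β) (bb α β) w.1 w.2) <
          ht (aa α β) (bb α β) l (xc (aa α β) (bb α β) w.1 w.2)} := by
      congr 1
      ext x
      simp only [mem_filter, (cr_pos_iff' hN x h1 ha).1]
    rw [this]
    omega
  · rw [← hk]
    unfold lev
    congr 1
    ext x
    simp only [mem_filter, (cr_pos_iff' hN x h1 ha).2]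

/-- the line through two points -/
def lin (w : (ℝ × ℝ) × (ℝ × ℝ)) : Set (ℝ × ℝ) := {x | Pool.Agent.W296.HL.cr w.1 w.2 x = 0}

lemma lin_eq (p q : ℝ × ℝ) : lin (p, q) = Line (-(q.2 - p.2)) (q.1 - p.1)
    (-(q.2 - p.2) * p.1 + (q.1 - p.1) * p.2) := by
  ext x
  simp only [lin, Line, Set.mem_ofPred_eq, Pool.Agent.W296.HL.cr]
  constructor <;> intro h <;> linarith

lemma left_mem_lin (w : (ℝ × ℝ) × (ℝ × ℝ)) : w.1 ∈ lin w := by
  simp only [lin, Set.mem_ofPred_eq, Pool.Agent.W296.HL.cr]; ring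

lemma right_mem_lin (w : (ℝ × ℝ) × (ℝ × ℝ)) : w.2 ∈ lin w := by
  simp only [lin, Set.mem_ofPred_eq, Pool.Agent.W296.HL.cr]; ring

lemma bisector_of_Hv {p q : ℝ × ℝ} (hp : p ∈ P) (hq : q ∈ P) (h : Hv P p q) :
    IsBisector P (lin (p, q)) := by
  classical
  refine ⟨-(q.2 - p.2), q.1 - p.1, -(q.2 - p.2) * p.1 + (q.1 - p.1) * p.2, ?_, lin_eq p q,
    ⟨p, hp, q, hq, h.1, left_mem_lin (p, q), right_mem_lin (p, q)⟩, ?_, ?_⟩
  · by_contra hcon
    push Not at hcon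
    apply h.1
    exact Prod.ext (by linarith [hcon.2]) (by linarith [hcon.1])
  · rw [← h.2.2]
    congr 1
    ext x
    rw [mem_filter, mem_filter]
    unfold Pool.Agent.W296.HL.cr
    refine and_congr_right fun _ => ⟨fun h => by linarith, fun h => by linarith⟩
  · rw [← h.2.1]
    congr 1
    ext x
    rw [mem_filter, mem_filter]
    unfold Pool.Agent.W296.HL.cr
    refine and_congr_right fun _ => ⟨fun h => by linarith, fun h => by linarith⟩

lemma lin_swap (p q : ℝ × ℝ) : lin (q, p) = lin (p, q) := by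
  ext x
  simp only [lin, Set.mem_ofPred_eq, Pool.Agent.W296.HL.cr]
  constructor <;> intro h <;> linarith

/-- every bisector comes from a crossing -/
lemma exists_VV (hN : 0 < α ^ 2 + β ^ 2)
    (hinj : ∀ p ∈ P, ∀ q ∈ P, p ≠ q → aa α β p ≠ aa α β q) {L : Set (ℝ × ℝ)}
    (hL : IsBisector P L) : ∃ w ∈ VV P (aa α β) (bb α β) (#P / 2 - 1), L = lin w := by
  classical
  obtain ⟨a, b, c, hab, hL2, ⟨p, hp, q, hq, hpq, hpL, hqL⟩, h1, h2⟩ := id hL
  obtain ⟨h3, h4⟩ := Pool.Agent.W296.HL.hv_of_line hL hpq hpL hqL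
  rcases lt_or_gt_of_ne (hinj p hp q hq hpq) with h5 | h5
  · exact ⟨(q, p), mem_VV_of_Hv hN hq hp h5 h3.symm, h4.trans (lin_swap p q).symm⟩
  · exact ⟨(p, q), mem_VV_of_Hv hN hp hq h5 h3, h4⟩

lemma ncard_le (hN : 0 < α ^ 2 + β ^ 2)
    (hinj : ∀ p ∈ P, ∀ q ∈ P, p ≠ q → aa α β p ≠ aa α β q) :
    {L | IsBisector P L}.ncard ≤ #(VV P (aa α β) (bb α β) (#P / 2 - 1)) := by
  classical
  have h : {L | IsBisector P L} ⊆
      ((VV P (aa α β) (bb α β) (#P / 2 - 1)).image lin : Set (Set (ℝ × ℝ))) := by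
    intro L hL
    obtain ⟨w, hw, h⟩ := exists_VV hN hinj hL
    exact mem_coe.mpr (mem_image.mpr ⟨w, hw, h.symm⟩)
  exact (Set.ncard_le_ncard h (Finset.finite_toSet _)).trans
    ((Set.ncard_coe_finset _).le.trans card_image_le)

/-- `2 (k + 1) = n` if there is a bisector -/
lemma two_mul_k (hE : Even #P) (h : 0 < {L | IsBisector P L}.ncard) :
    2 * (#P / 2 - 1 + 1) = #P := by
  obtain ⟨L, hL⟩ := Set.nonempty_of_ncard_ne_zero h.ne'
  obtain ⟨a, b, c, hab, hL2, ⟨p, hp, q, hq, hpq, hpL, hqL⟩, h1, h2⟩ := hL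
  have : 0 < #P := card_pos.mpr ⟨p, hp⟩
  obtain ⟨m, hm⟩ := hE
  omega

end Pool.Agent.TH3.CH
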